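import Mathlib

namespace Pool.Agent.NagGon

open Polynomial

section
variable {κ : Type*} [Field κ]

/-- Local parametrisation of the Fermat curve at a point with `β ≠ 0`, modulo `(X - a)^m`. -/
theorem exists_root_mod [CharZero κ] (e : ℕ) (he : 1 ≤ e) (a β : κ) (h : a ^ e + β ^ e = 1)
    (hβ : β ≠ 0) (m : ℕ) :
    ∃ η : κ[X], (X - C a) ^ (m + 1) ∣ η ^ e - (1 - X ^ e) ∧ (X - C a) ∣ η - C β := by
  induction m with
  | zero =>
    refine ⟨C β, ?_, by simp⟩
    rw [zero_add, pow_one, dvd_iff_isRoot, IsRoot.def]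
    simp
    linear_combination h
  | succ m ih =>
    obtain ⟨η, ⟨g, hg⟩, hη⟩ := ih
    obtain ⟨k, hk⟩ := binomExpansion (X ^ e : κ[X][X]) η
      ((X - C a) ^ (m + 1) * C (- g.eval a / (e * β ^ (e - 1))))
    set c : κ := - g.eval a / (e * β ^ (e - 1)) with hc
    refine ⟨η + (X - C a) ^ (m + 1) * C c, ?_, ?_⟩
    · have h1 : (η + (X - C a) ^ (m + 1) * C c) ^ e - (1 - X ^ e) =
          (X - C a) ^ (m + 1) * (g + (e : κ[X]) * η ^ (e - 1) * C c) +
          (X - C a) ^ (m + 2) * (k * (X - C a) ^ m * C c ^ 2) := by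
        simp only [eval_pow, eval_X, derivative_X_pow, eval_mul, eval_C] at hk
        rw [hk, pow_succ (X - C a) (m + 1)]
        linear_combination hg
      rw [h1]
      refine dvd_add ?_ (dvd_mul_right _ _)
      rw [pow_succ (X - C a) (m + 1)]
      refine mul_dvd_mul_left _ ?_
      rw [dvd_iff_isRoot, IsRoot.def]
      have h2 : η.eval a = β := by
        have := dvd_iff_isRoot.1 hη
        rw [IsRoot.def, eval_sub, eval_C] at this
        exact sub_eq_zero.1 this
      have h3 : (e : κ) ≠ 0 := by exact_mod_cast (by omega : e ≠ 0)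
      simp only [eval_add, eval_mul, eval_natCast, eval_pow, eval_C, h2]
      rw [hc]
      field_simp
      ring
    · have h1 : η + (X - C a) ^ (m + 1) * C c - C β = (η - C β) + (X - C a) * ((X - C a) ^ m * C c) := by
        ring
      rw [h1]
      exact dvd_add hη (dvd_mul_right _ _)

/-- The polynomial `Y^e - (1 - X^e)` in `κ[X][Y]`. -/
noncomputable def fpoly (κ : Type*) [Field κ] (e : ℕ) : κ[X][X] := X ^ e - C (1 - X ^ e)

theorem fpoly_monic (e : ℕ) (he : 1 ≤ e) : (fpoly κ e).Monic :=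
  monic_X_pow_sub_C _ (by omega)

theorem fpoly_natDegree (e : ℕ) : (fpoly κ e).natDegree = e :=
  natDegree_X_pow_sub_C

theorem fpoly_prime [CharZero κ] (e : ℕ) (he : 1 ≤ e) : Prime (fpoly κ e) := by
  rw [← irreducible_iff_prime]
  have hP : (Ideal.span {(X - C 1 : κ[X])}).IsPrime := by
    rw [Ideal.span_singleton_prime (X_sub_C_ne_zero 1)]
    exact prime_X_sub_C 1
  apply irreducible_of_eisenstein_criterion hP
  · rw [(fpoly_monic e he).leadingCoeff, ← Ideal.ne_top_iff_one]
    exact hP.ne_top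
  · intro n hn
    rw [degree_eq_natDegree (fpoly_monic (κ := κ) e he).ne_zero, fpoly_natDegree] at hn
    have hn' : n < e := by exact_mod_cast hn
    rw [fpoly, coeff_sub, coeff_X_pow, if_neg (by omega), coeff_C]
    by_cases h0 : n = 0
    · rw [if_pos h0, Ideal.mem_span_singleton, dvd_iff_isRoot]
      simp [IsRoot.def]
    · rw [if_neg h0]
      simp
  · rw [degree_eq_natDegree (fpoly_monic (κ := κ) e he).ne_zero, fpoly_natDegree]
    exact_mod_cast he
  · rw [fpoly, coeff_sub, coeff_X_pow, coeff_C, if_neg (by omega), if_pos rfl,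
      Ideal.span_singleton_pow, Ideal.mem_span_singleton]
    rintro ⟨q, hq⟩
    have h1 := congrArg derivative hq
    have h2 := congrArg (eval 1) h1
    simp [derivative_mul, derivative_pow] at h2
    omega
  · exact (fpoly_monic e he).isPrimitive

/-- Coordinate ring of the Fermat curve. -/
abbrev RG (κ : Type*) [Field κ] (e : ℕ) := AdjoinRoot (fpoly κ e)

theorem RG_isDomain [CharZero κ] (e : ℕ) (he : 1 ≤ e) : IsDomain (RG κ e) :=
  AdjoinRoot.isDomain_of_prime (fpoly_prime e he)

noncomputable def xG (κ : Type*) [Field κ] (e : ℕ) : RG κ e := algebraMap κ[X] (RG κ e) X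
noncomputable def yG (κ : Type*) [Field κ] (e : ℕ) : RG κ e := AdjoinRoot.root (fpoly κ e)

theorem yG_pow (e : ℕ) : yG κ e ^ e = 1 - xG κ e ^ e := by
  have h : yG κ e ^ e - AdjoinRoot.of (fpoly κ e) (1 - X ^ e) = 0 := by
    have h1 : eval₂ (AdjoinRoot.of (fpoly κ e)) (AdjoinRoot.root (fpoly κ e))
        (X ^ e - C (1 - X ^ e)) = 0 := AdjoinRoot.eval₂_root (fpoly κ e)
    rw [eval₂_sub, eval₂_X_pow, eval₂_C] at h1
    exact h1
  rw [sub_eq_zero.1 h, map_sub, map_one, map_pow]
  rfl

/-- The restriction of polynomials to the Fermat curve. -/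
noncomputable def piG (κ : Type*) [Field κ] (e : ℕ) : MvPolynomial (Fin 2) κ →ₐ[κ] RG κ e :=
  MvPolynomial.aeval ![xG κ e, yG κ e]

/-- The filtration by degree. -/
noncomputable def filt (κ : Type*) [Field κ] (e N : ℕ) : Submodule κ (RG κ e) :=
  Submodule.span κ {w | ∃ i j, i + j ≤ N ∧ j < e ∧ w = xG κ e ^ i * yG κ e ^ j}

theorem filt_mono (e : ℕ) {N N' : ℕ} (h : N ≤ N') : filt κ e N ≤ filt κ e N' := by
  apply Submodule.span_mono
  rintro w ⟨i, j, h1, h2, rfl⟩
  exact ⟨i, j, h1.trans h, h2, rfl⟩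

theorem filt_x (e N : ℕ) (w : RG κ e) (hw : w ∈ filt κ e N) : xG κ e * w ∈ filt κ e (N + 1) := by
  induction hw using Submodule.span_induction with
  | mem w hw =>
    obtain ⟨i, j, h1, h2, rfl⟩ := hw
    exact Submodule.subset_span ⟨i + 1, j, by omega, h2, by ring⟩
  | zero => simp
  | add a b _ _ ha hb => rw [mul_add]; exact add_mem ha hb
  | smul c a _ ha => rw [mul_smul_comm]; exact Submodule.smul_mem _ _ ha

theorem filt_y (e N : ℕ) (w : RG κ e) (hw : w ∈ filt κ e N) : yG κ e * w ∈ filt κ e (N + 1) := by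
  induction hw using Submodule.span_induction with
  | mem w hw =>
    obtain ⟨i, j, h1, h2, rfl⟩ := hw
    by_cases h3 : j + 1 < e
    · exact Submodule.subset_span ⟨i, j + 1, by omega, h3, by ring⟩
    · have h4 : e = j + 1 := by omega
      have h5 : yG κ e * (xG κ e ^ i * yG κ e ^ j) = xG κ e ^ i * yG κ e ^ 0 -
          xG κ e ^ (i + e) * yG κ e ^ 0 := by
        have h6 : yG κ e * (xG κ e ^ i * yG κ e ^ j) = xG κ e ^ i * yG κ e ^ e := by
          conv_rhs => rw [show yG κ e ^ e = yG κ e ^ (j + 1) from by rw [← h4]]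
          ring
        rw [h6, yG_pow]
        ring
      rw [h5]
      refine sub_mem (Submodule.subset_span ⟨i, 0, by omega, by omega, rfl⟩)
        (Submodule.subset_span ⟨i + e, 0, by omega, by omega, rfl⟩)
  | zero => simp
  | add a b _ _ ha hb => rw [mul_add]; exact add_mem ha hb
  | smul c a _ ha => rw [mul_smul_comm]; exact Submodule.smul_mem _ _ ha

theorem filt_monomial (e : ℕ) (i j N : ℕ) (w : RG κ e) (hw : w ∈ filt κ e N) :
    xG κ e ^ i * yG κ e ^ j * w ∈ filt κ e (i + j + N) := by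
  induction i with
  | zero =>
    induction j with
    | zero => simpa using hw
    | succ j ih =>
      have := filt_y e _ _ ih
      have h2 : xG κ e ^ 0 * yG κ e ^ (j + 1) * w = yG κ e * (xG κ e ^ 0 * yG κ e ^ j * w) := by
        ring
      rw [h2]
      exact filt_mono e (by omega) this
  | succ i ih =>
    have := filt_x e _ _ ih
    have h2 : xG κ e ^ (i + 1) * yG κ e ^ j * w = xG κ e * (xG κ e ^ i * yG κ e ^ j * w) := by
      ring
    rw [h2]
    exact filt_mono e (by omega) this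

theorem filt_piG (e : ℕ) (F : MvPolynomial (Fin 2) κ) (d N : ℕ)
    (hd : F.totalDegree ≤ d) (w : RG κ e) (hw : w ∈ filt κ e N) :
    piG κ e F * w ∈ filt κ e (d + N) := by
  rw [piG, MvPolynomial.aeval_def, MvPolynomial.eval₂_eq', Finset.sum_mul]
  refine Submodule.sum_mem _ fun s hs => ?_
  have h1 : s 0 + s 1 ≤ d := by
    have h2 := MvPolynomial.le_totalDegree hs
    have h3 : (s.sum fun _ e => e) = s 0 + s 1 := by
      rw [Finsupp.sum_fintype _ _ (fun _ => rfl), Fin.sum_univ_two]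
    omega
  rw [Fin.prod_univ_two, mul_assoc, ← Algebra.smul_def]
  refine Submodule.smul_mem _ _ (filt_mono e (by omega : s 0 + s 1 + N ≤ d + N) ?_)
  exact filt_monomial e (s 0) (s 1) N w hw

/-- The power basis of the coordinate ring. -/
noncomputable def pbG (κ : Type*) [Field κ] (e : ℕ) (he : 1 ≤ e) : PowerBasis κ[X] (RG κ e) :=
  AdjoinRoot.powerBasis' (fpoly_monic (κ := κ) e he)

theorem pbG_dim (e : ℕ) (he : 1 ≤ e) : (pbG κ e he).dim = e := by
  rw [pbG, AdjoinRoot.powerBasis'_dim, fpoly_natDegree]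

theorem pbG_gen (e : ℕ) (he : 1 ≤ e) : (pbG κ e he).gen = yG κ e := by
  rw [pbG, AdjoinRoot.powerBasis'_gen]; rfl

theorem repr_coeff (e : ℕ) (he : 1 ≤ e) (N : ℕ) (w : RG κ e) (hw : w ∈ filt κ e N)
    (k : Fin (pbG κ e he).dim) (n : ℕ) (hn : N < n + k) :
    ((pbG κ e he).basis.repr w k).coeff n = 0 := by
  induction hw using Submodule.span_induction with
  | mem w hw =>
    obtain ⟨i, j, h1, h2, rfl⟩ := hw
    have hj : j < (pbG κ e he).dim := by rw [pbG_dim]; exact h2
    have h3 : xG κ e ^ i * yG κ e ^ j = (X ^ i : κ[X]) • (pbG κ e he).basis ⟨j, hj⟩ := by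
      rw [PowerBasis.basis_eq_pow, pbG_gen, Algebra.smul_def, map_pow]
      rfl
    rw [h3, map_smul, Module.Basis.repr_self, Finsupp.smul_apply, Finsupp.single_apply]
    split_ifs with h4
    · have h5 : j = (k : ℕ) := congrArg Fin.val h4
      rw [smul_eq_mul, mul_one, coeff_X_pow, if_neg]
      omega
    · simp
  | zero => simp
  | add a b _ _ ha hb => simp only [map_add, Finsupp.add_apply, coeff_add, ha, hb, add_zero]
  | smul c a _ ha =>
    have h1 : c • a = (C c : κ[X]) • a := by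
      rw [Algebra.smul_def, Algebra.smul_def]; rfl
    rw [h1, map_smul, Finsupp.smul_apply, smul_eq_mul, coeff_C_mul, ha, mul_zero]

theorem det_degree {n d : ℕ} (A : Matrix (Fin n) (Fin n) κ[X])
    (hA : ∀ k j, A k j ≠ 0 → (A k j).natDegree + k ≤ d + j) : A.det.natDegree ≤ n * d := by
  classical
  rw [Matrix.det_apply]
  refine natDegree_sum_le_of_forall_le _ _ fun σ _ => ?_
  refine (natDegree_smul_le _ _).trans ?_
  by_cases hz : ∃ i, A (σ i) i = 0
  · obtain ⟨i, hi⟩ := hz
    have h0 : (∏ i, A (σ i) i) = 0 :=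
      Finset.prod_eq_zero (f := fun i => A (σ i) i) (Finset.mem_univ i) hi
    exact (le_of_eq (by rw [show (∏ i, A (σ i) i) = 0 from h0, natDegree_zero])).trans
      (Nat.zero_le _)
  · push Not at hz
    refine (natDegree_prod_le _ _).trans ?_
    have h1 : ∑ i, ((A (σ i) i).natDegree + ((σ i : Fin n) : ℕ)) ≤ ∑ i : Fin n, (d + (i : ℕ)) :=
      Finset.sum_le_sum fun i _ => hA _ _ (hz i)
    rw [Finset.sum_add_distrib, Finset.sum_add_distrib,
      Equiv.sum_comp σ (fun i : Fin n => (i : ℕ))] at h1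
    have h2 := Nat.le_of_add_le_add_right h1
    simpa using h2

/-- The norm of a polynomial of degree `d` restricted to the Fermat curve has degree `≤ e d`. -/
theorem norm_degree (e : ℕ) (he : 1 ≤ e) (F : MvPolynomial (Fin 2) κ) (d : ℕ)
    (hd : F.totalDegree ≤ d) : (Algebra.norm κ[X] (piG κ e F)).natDegree ≤ e * d := by
  classical
  rw [Algebra.norm_eq_matrix_det (pbG κ e he).basis]
  have hA : ∀ k j : Fin (pbG κ e he).dim,
      (Algebra.leftMulMatrix (pbG κ e he).basis (piG κ e F)) k j ≠ 0 →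
      ((Algebra.leftMulMatrix (pbG κ e he).basis (piG κ e F)) k j).natDegree + k ≤ d + j := by
    intro k j hne
    rw [Algebra.leftMulMatrix_eq_repr_mul] at hne ⊢
    by_contra hcon
    have h1 : (pbG κ e he).basis j ∈ filt κ e j := by
      rw [PowerBasis.basis_eq_pow, pbG_gen]
      refine Submodule.subset_span ⟨0, j, by omega, ?_, by simp⟩
      have := j.2
      have h' := pbG_dim (κ := κ) e he
      omega
    have h2 := filt_piG e F d j hd _ h1
    have h3 := repr_coeff e he _ _ h2 k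
      ((pbG κ e he).basis.repr (piG κ e F * (pbG κ e he).basis j) k).natDegree (by omega)
    exact hne (leadingCoeff_eq_zero.1 h3)
  exact (det_degree _ hA).trans (le_of_eq (by rw [pbG_dim]))

/-- The norm is a multiple of the element. -/
theorem dvd_norm (e : ℕ) (he : 1 ≤ e) (z : RG κ e) :
    z ∣ algebraMap κ[X] (RG κ e) (Algebra.norm κ[X] z) := by
  classical
  set A := Algebra.leftMulMatrix (pbG κ e he).basis z with hA
  have h1 : aeval z A.charpoly = 0 := by
    apply Algebra.leftMulMatrix_injective (pbG κ e he).basis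
    rw [← Polynomial.aeval_algHom_apply, map_zero]
    exact Matrix.aeval_self_charpoly A
  have h2 : Algebra.norm κ[X] z = (-1) ^ Fintype.card (Fin (pbG κ e he).dim) * A.charpoly.coeff 0 := by
    rw [Algebra.norm_eq_matrix_det (pbG κ e he).basis, Matrix.det_eq_sign_charpoly_coeff]
  have h3 : algebraMap κ[X] (RG κ e) (A.charpoly.coeff 0) = - (z * aeval z A.charpoly.divX) := by
    have h4 := h1
    rw [← divX_mul_X_add A.charpoly, map_add, map_mul, aeval_X, aeval_C] at h4
    linear_combination h4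
  rw [h2, map_mul, h3]
  exact Dvd.dvd.mul_left (Dvd.intro _ rfl |>.neg_right) _

/-- Vanishing to order `≥ m` at the point `(a, b)`. -/
def VanishAt (F : MvPolynomial (Fin 2) κ) (a b : κ) (m : ℕ) : Prop :=
  ∀ s : Fin 2 →₀ ℕ, s 0 + s 1 < m →
    MvPolynomial.coeff s (MvPolynomial.aeval
      ![MvPolynomial.X 0 + MvPolynomial.C a, MvPolynomial.X 1 + MvPolynomial.C b] F) = 0

theorem eval_vanish (F : MvPolynomial (Fin 2) κ) (a b : κ) (m : ℕ) (hF : VanishAt F a b m)
    (η : κ[X]) (hη : (X - C a) ∣ η - C b) :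
    (X - C a) ^ m ∣ MvPolynomial.aeval ![(X : κ[X]), η] F := by
  set G := MvPolynomial.aeval
      ![(MvPolynomial.X 0 + MvPolynomial.C a : MvPolynomial (Fin 2) κ),
        MvPolynomial.X 1 + MvPolynomial.C b] F with hG
  have h1 : MvPolynomial.aeval ![(X : κ[X]), η] F = MvPolynomial.aeval ![X - C a, η - C b] G := by
    rw [hG, ← AlgHom.comp_apply]
    congr 1
    apply MvPolynomial.algHom_ext
    intro i
    fin_cases i <;> simp
  rw [h1, MvPolynomial.aeval_def, MvPolynomial.eval₂_eq']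
  refine Finset.dvd_sum fun s hs => ?_
  have h2 : m ≤ s 0 + s 1 := by
    by_contra hcon
    exact (MvPolynomial.mem_support_iff.1 hs) (hF s (by omega))
  rw [Fin.prod_univ_two]
  apply Dvd.dvd.mul_left
  have h3 : (X - C a) ^ (s 0 + s 1) ∣ (X - C a) ^ s 0 * (η - C b) ^ s 1 := by
    rw [pow_add]
    exact mul_dvd_mul_left _ (pow_dvd_pow_of_dvd hη _)
  exact (pow_dvd_pow _ h2).trans h3

theorem norm_dvd_local [CharZero κ] (e : ℕ) (he : 1 ≤ e) (F : MvPolynomial (Fin 2) κ)
    (a β : κ) (h : a ^ e + β ^ e = 1) (hβ : β ≠ 0) (m : ℕ) (hF : VanishAt F a β m) :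
    (X - C a) ^ m ∣ Algebra.norm κ[X] (piG κ e F) := by
  obtain ⟨η, hη1, hη2⟩ := exists_root_mod e he a β h hβ m
  have hη3 : (X - C a) ^ m ∣ η ^ e - (1 - X ^ e) := (pow_dvd_pow _ (Nat.le_succ m)).trans hη1
  let I : Ideal κ[X] := Ideal.span {(X - C a) ^ m}
  let ev : RG κ e →+* κ[X] ⧸ I := AdjoinRoot.lift (Ideal.Quotient.mk I) (Ideal.Quotient.mk I η) (by
    rw [fpoly, eval₂_sub, eval₂_X_pow, eval₂_C, ← map_pow, ← map_sub, Ideal.Quotient.eq_zero_iff_mem,
      Ideal.mem_span_singleton]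
    exact hη3)
  have hev1 : ∀ p : κ[X], ev (algebraMap κ[X] (RG κ e) p) = Ideal.Quotient.mk I p := fun p =>
    AdjoinRoot.lift_of _
  have hev2 : ev (yG κ e) = Ideal.Quotient.mk I η := AdjoinRoot.lift_root _
  have hev3 : ev (piG κ e F) = Ideal.Quotient.mk I (MvPolynomial.aeval ![(X : κ[X]), η] F) := by
    have h1 : (ev.comp (piG κ e).toRingHom) =
        (Ideal.Quotient.mk I).comp (MvPolynomial.aeval ![(X : κ[X]), η]).toRingHom := by
      apply MvPolynomial.ringHom_ext
      · intro c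
        simp only [RingHom.comp_apply, AlgHom.toRingHom_eq_coe, RingHom.coe_coe]
        rw [← MvPolynomial.algebraMap_eq, AlgHom.commutes, AlgHom.commutes]
        exact hev1 (C c)
      · intro i
        simp only [RingHom.comp_apply, AlgHom.toRingHom_eq_coe, RingHom.coe_coe, piG,
          MvPolynomial.aeval_X]
        fin_cases i
        · exact hev1 X
        · exact hev2
    exact RingHom.congr_fun h1 F
  obtain ⟨z', hz'⟩ := dvd_norm e he (piG κ e F)
  have h4 := congrArg ev hz'
  rw [hev1, map_mul, hev3, (Ideal.Quotient.eq_zero_iff_mem.2 (Ideal.mem_span_singleton.2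
    (eval_vanish F a β m hF η hη2))), zero_mul, Ideal.Quotient.eq_zero_iff_mem,
    Ideal.mem_span_singleton] at h4
  exact h4

/-- Bezout on the Fermat curve. -/
theorem bezout [CharZero κ] (e : ℕ) (he : 1 ≤ e) (F : MvPolynomial (Fin 2) κ) (d : ℕ)
    (hd : F.totalDegree ≤ d) (hF : piG κ e F ≠ 0) {n : ℕ} (a β : Fin n → κ)
    (ha : Function.Injective a) (hΓ : ∀ i, a i ^ e + β i ^ e = 1) (hβ : ∀ i, β i ≠ 0)
    (m : Fin n → ℕ) (hm : ∀ i, VanishAt F (a i) (β i) (m i)) : ∑ i, m i ≤ e * d := by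
  have := RG_isDomain (κ := κ) e he
  have hfree : Module.Free κ[X] (RG κ e) := Module.Free.of_basis (pbG κ e he).basis
  have hfin : Module.Finite κ[X] (RG κ e) := (pbG κ e he).finite
  have hN : Algebra.norm κ[X] (piG κ e F) ≠ 0 := by
    rw [Algebra.norm_ne_zero_iff_of_basis (pbG κ e he).basis]
    exact hF
  have hdvd : ∏ i, (X - C (a i)) ^ m i ∣ Algebra.norm κ[X] (piG κ e F) := by
    apply Finset.prod_dvd_of_coprime
    · intro i _ j _ hij
      apply IsCoprime.pow
      exact isCoprime_X_sub_C_of_isUnit_sub (sub_ne_zero.2 (ha.ne hij)).isUnit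
    · intro i _
      exact norm_dvd_local e he F (a i) (β i) (hΓ i) (hβ i) (m i) (hm i)
  have h1 := natDegree_le_of_dvd hdvd hN
  have h2 : (∏ i, (X - C (a i)) ^ m i).natDegree = ∑ i, m i := by
    rw [natDegree_prod_of_monic _ _ (fun i _ => (monic_X_sub_C _).pow _)]
    refine Finset.sum_congr rfl fun i _ => ?_
    rw [(monic_X_sub_C (a i)).natDegree_pow, natDegree_X_sub_C, mul_one]
  rw [h2] at h1
  exact h1.trans (norm_degree e he F d hd)

end

end Pool.Agent.NagGon
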