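import Mathlib

namespace Pool.Agent.NagGon

open Polynomial TensorProduct
open scoped IntermediateField.algebraAdjoinAdjoin

/-- The derivation `d/dt` of a field algebraic over `κ(t)`. -/
theorem exists_derivation {κ N : Type*} [Field κ] [CharZero κ] [Field N] [Algebra κ N]
    (t : N) (ht : Transcendental κ t)
    (halg : Algebra.IsAlgebraic (IntermediateField.adjoin κ {t}) N) :
    ∃ D : Derivation κ N N, D t = 1 := by
  have : CharZero (IntermediateField.adjoin κ {t}) :=
    charZero_of_injective_algebraMap (algebraMap κ _).injective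
  set A := Algebra.adjoin κ {t} with hA
  let f : κ[X] →ₐ[κ] A := aeval (⟨t, Algebra.self_mem_adjoin_singleton κ t⟩ : A)
  have hf : ∀ p : κ[X], ((f p : A) : N) = aeval t p := fun p =>
    (Polynomial.aeval_algebraMap_apply N
      (⟨t, Algebra.self_mem_adjoin_singleton κ t⟩ : A) p).symm
  have hfs : Function.Surjective f := by
    rintro ⟨x, hx⟩
    have hx' := hx
    rw [hA, Algebra.adjoin_singleton_eq_range_aeval] at hx'
    obtain ⟨p, hp⟩ := hx'
    exact ⟨p, Subtype.ext ((hf p).trans hp)⟩
  have hfi : Function.Injective f := by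
    rw [injective_iff_map_eq_zero]
    intro p hp
    by_contra hne
    exact ht ⟨p, hne, by rw [← hf, hp]; rfl⟩
  let algXA : Algebra κ[X] A := f.toRingHom.toAlgebra
  let algXN : Algebra κ[X] N := (aeval t : κ[X] →ₐ[κ] N).toRingHom.toAlgebra
  have tower1 : IsScalarTower κ[X] A N := IsScalarTower.of_algebraMap_eq fun p => (hf p).symm
  have tower2 : IsScalarTower κ κ[X] N := IsScalarTower.of_algebraMap_eq fun c => by
    change algebraMap κ N c = aeval t (algebraMap κ κ[X] c)
    simp
  have e1 : Algebra.FormallyEtale κ[X] A :=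
    Algebra.FormallyEtale.of_equiv
      (AlgEquiv.ofBijective (Algebra.ofId κ[X] A) ⟨hfi, hfs⟩)
  have e2 : Algebra.FormallyEtale A (IntermediateField.adjoin κ {t}) :=
    Algebra.FormallyEtale.of_isLocalization (nonZeroDivisors A)
  have e3 : Algebra.FormallyEtale (IntermediateField.adjoin κ {t}) N :=
    Algebra.FormallyEtale.of_isSeparable _ N
  have e4 : Algebra.FormallyEtale A N :=
    Algebra.FormallyEtale.comp A (IntermediateField.adjoin κ {t}) N
  have e5 : Algebra.FormallyEtale κ[X] N := Algebra.FormallyEtale.comp κ[X] A N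
  let φ : Ω[κ[X]⁄κ] →ₗ[κ[X]] N := (mkDerivation κ (1 : N)).liftKaehlerDifferential
  let ψ : N ⊗[κ[X]] Ω[κ[X]⁄κ] →ₗ[N] N := φ.liftBaseChange N
  let χ : Ω[N⁄κ] →ₗ[N] N :=
    ψ ∘ₗ (KaehlerDifferential.tensorKaehlerEquivOfFormallyEtale κ κ[X] N).symm.toLinearMap
  refine ⟨χ.compDer (KaehlerDifferential.D κ N), ?_⟩
  change ψ ((KaehlerDifferential.tensorKaehlerEquivOfFormallyEtale κ κ[X] N).symm
    (KaehlerDifferential.D κ N t)) = 1
  have h1 : t = algebraMap κ[X] N X := by
    change t = aeval t (X : κ[X])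
    simp
  conv_lhs => rw [h1]
  rw [KaehlerDifferential.tensorKaehlerEquivOfFormallyEtale_symm_D_algebraMap]
  simp only [ψ, LinearMap.liftBaseChange_tmul, one_smul]
  simp only [φ, Derivation.liftKaehlerDifferential_comp_D, mkDerivation_X]

end Pool.Agent.NagGon
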