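import Mathlib

namespace Pool.Agent.NagGon

open Polynomial

section deriv
variable {κ N : Type*} [Field κ] [Field N] [Algebra κ N]

/-- The field of constants of a derivation. -/
def constField (D : Derivation κ N N) : IntermediateField κ N where
  carrier := {z | D z = 0}
  mul_mem' := by
    intro a b ha hb
    simp only [Set.mem_ofPred_eq] at *
    simp [Derivation.leibniz, ha, hb]
  one_mem' := by simp
  add_mem' := by
    intro a b ha hb
    simp only [Set.mem_ofPred_eq] at *
    simp [ha, hb]
  zero_mem' := by simp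
  algebraMap_mem' := by intro r; simp
  inv_mem' := by
    intro a ha
    simp only [Set.mem_ofPred_eq] at *
    simp [Derivation.leibniz_inv, ha]

theorem mem_constField (D : Derivation κ N N) (z : N) : z ∈ constField D ↔ D z = 0 := Iff.rfl

/-- A derivation killing `t` kills everything algebraic over `κ(t)`. -/
theorem deriv_zero [CharZero N] (D : Derivation κ N N) (t : N) (h : D t = 0) (z : N)
    (hz : IsAlgebraic (IntermediateField.adjoin κ {t}) z) : D z = 0 := by
  have hle : IntermediateField.adjoin κ {t} ≤ constField D := by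
    rw [IntermediateField.adjoin_le_iff]
    rintro x hx
    rw [Set.mem_singleton_iff] at hx
    subst hx
    exact h
  have hz2 : IsAlgebraic (constField D) z := by
    obtain ⟨p, hp0, hp⟩ := hz
    refine ⟨p.map (IntermediateField.inclusion hle).toRingHom, ?_, ?_⟩
    · rw [Polynomial.map_ne_zero_iff (RingHom.injective _)]
      exact hp0
    · rw [aeval_def, eval₂_map]
      exact hp
  let E : Derivation (constField D) N N :=
    Derivation.mk' (R := constField D)
      { toFun := D
        map_add' := fun a b => map_add D a b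
        map_smul' := by
          intro c x
          have hc : D (c : N) = 0 := c.2
          change D ((c : N) * x) = (c : N) * D x
          rw [Derivation.leibniz, hc]
          simp } (by
      intro a b
      exact D.leibniz a b)
  have hE : ∀ x, E x = D x := fun _ => rfl
  have hchar : CharZero (constField D) := by
    constructor
    intro a b hab
    have h2 := congrArg (Subtype.val) hab
    simpa using h2
  have hsep : (minpoly (constField D) z).Separable :=
    (minpoly.irreducible hz2.isIntegral).separable
  have h1 : aeval z (derivative (minpoly (constField D) z)) * E z = 0 := by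
    rw [← smul_eq_mul, ← Derivation.map_aeval, minpoly.aeval, map_zero]
  have h2 : aeval z (derivative (minpoly (constField D) z)) ≠ 0 :=
    hsep.aeval_derivative_ne_zero (minpoly.aeval _ _)
  rw [← hE]
  exact (mul_eq_zero.1 h1).resolve_left h2

end deriv

section finite
variable {κ K₀ N : Type*} [Field κ] [Field K₀] [Field N] [Algebra κ K₀] [Algebra K₀ N]
  [Algebra κ N] [IsScalarTower κ K₀ N]

theorem finite_over_adjoin [FiniteDimensional K₀ N] (τ : K₀)
    (hgen : IntermediateField.adjoin κ {τ} = ⊤) :
    FiniteDimensional (IntermediateField.adjoin κ {algebraMap K₀ N τ}) N := by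
  have hmem : ∀ z : K₀, algebraMap K₀ N z ∈ IntermediateField.adjoin κ {algebraMap K₀ N τ} := by
    intro z
    have hz : z ∈ IntermediateField.adjoin κ {τ} := by rw [hgen]; trivial
    have h1 : (IsScalarTower.toAlgHom κ K₀ N) z ∈
        (IntermediateField.adjoin κ {τ}).map (IsScalarTower.toAlgHom κ K₀ N) := ⟨z, hz, rfl⟩
    rw [IntermediateField.adjoin_map] at h1
    simpa using h1
  let g : K₀ →+* IntermediateField.adjoin κ {algebraMap K₀ N τ} :=
    (algebraMap K₀ N).codRestrict _ hmem
  let alg1 : Algebra K₀ (IntermediateField.adjoin κ {algebraMap K₀ N τ}) := g.toAlgebra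
  have tow : IsScalarTower K₀ (IntermediateField.adjoin κ {algebraMap K₀ N τ}) N :=
    IsScalarTower.of_algebraMap_eq fun _ => rfl
  exact Module.Finite.of_restrictScalars_finite K₀ _ N

theorem gen_sub (t : K₀) (hgen : IntermediateField.adjoin κ {t} = ⊤) (c : κ) :
    IntermediateField.adjoin κ {t - algebraMap κ K₀ c} = ⊤ := by
  rw [eq_top_iff, ← hgen, IntermediateField.adjoin_le_iff]
  rintro x hx
  rw [Set.mem_singleton_iff] at hx
  subst hx
  have h1 : x - algebraMap κ K₀ c ∈ IntermediateField.adjoin κ {x - algebraMap κ K₀ c} :=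
    IntermediateField.mem_adjoin_simple_self κ _
  have h2 := add_mem h1
    ((IntermediateField.adjoin κ {x - algebraMap κ K₀ c}).algebraMap_mem c)
  simpa using h2

theorem gen_inv (t : K₀) (hgen : IntermediateField.adjoin κ {t} = ⊤) :
    IntermediateField.adjoin κ {t⁻¹} = ⊤ := by
  rw [eq_top_iff, ← hgen, IntermediateField.adjoin_le_iff]
  rintro x hx
  rw [Set.mem_singleton_iff] at hx
  subst hx
  have h1 : x⁻¹ ∈ IntermediateField.adjoin κ {x⁻¹} := IntermediateField.mem_adjoin_simple_self κ _
  have h2 := inv_mem h1
  simpa using h2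

end finite

section poly
variable {κ N : Type*} [Field κ] [Field N] [Algebra κ N]
  {Γ : Type*} [LinearOrderedCommGroupWithZero Γ]

theorem val_aeval_le (w : Valuation N Γ) (hc : ∀ c : κ, c ≠ 0 → w (algebraMap κ N c) = 1)
    (τ : N) (hτ : w τ ≤ 1) (p : κ[X]) : w (aeval τ p) ≤ 1 := by
  rw [aeval_eq_sum_range]
  refine Valuation.map_sum_le _ fun i _ => ?_
  rw [Algebra.smul_def, map_mul, map_pow]
  refine mul_le_one' ?_ (pow_le_one' hτ _)
  by_cases h : p.coeff i = 0
  · rw [h, map_zero, map_zero]; exact zero_le_one
  · exact (hc _ h).le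

theorem val_aeval_eq_one (w : Valuation N Γ) (hc : ∀ c : κ, c ≠ 0 → w (algebraMap κ N c) = 1)
    (τ : N) (hτ : w τ < 1) (p : κ[X]) (hp : p.coeff 0 ≠ 0) : w (aeval τ p) = 1 := by
  have h1 : aeval τ p = aeval τ p.divX * τ + algebraMap κ N (p.coeff 0) := by
    conv_lhs => rw [← divX_mul_X_add p]
    simp
  rw [h1, Valuation.map_add_eq_of_lt_right, hc _ hp]
  rw [hc _ hp, map_mul]
  exact (mul_le_of_le_one_left' (val_aeval_le w hc τ hτ.le _)).trans_lt hτ

/-- A rational function without poles at finite places which vanishes at infinity is zero. -/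
theorem zero_of_places [IsAlgClosed κ]
    (t : N) (ht : Transcendental κ t) (T : N) (hT : T ∈ IntermediateField.adjoin κ {t})
    (hfin : ∀ c : κ, ∃ w : Valuation N Γ, (∀ c' : κ, c' ≠ 0 → w (algebraMap κ N c') = 1) ∧
       w (t - algebraMap κ N c) < 1 ∧ w ((t - algebraMap κ N c) * T) < 1)
    (hinf : ∃ w : Valuation N Γ, (∀ c' : κ, c' ≠ 0 → w (algebraMap κ N c') = 1) ∧
       w t⁻¹ < 1 ∧ w (t * T) < 1) : T = 0 := by
  have haux : ∀ q : κ[X], aeval t q = 0 → q = 0 := by
    intro q hq
    by_contra hne
    exact ht ⟨q, hne, hq⟩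
  -- clear denominators
  have key : ∀ n : ℕ, ∀ Q : κ[X], Q ≠ 0 → Q.natDegree ≤ n → ∀ P : κ[X],
      T * aeval t Q = aeval t P → ∃ P' : κ[X], T = aeval t P' := by
    intro n
    induction n with
    | zero =>
      intro Q hQ hdeg P h
      have h1 : Q = C (Q.coeff 0) := eq_C_of_natDegree_le_zero hdeg
      have h2 : Q.coeff 0 ≠ 0 := by
        intro h3
        rw [h3, C_0] at h1
        exact hQ h1
      refine ⟨C (Q.coeff 0)⁻¹ * P, ?_⟩
      rw [map_mul, ← h, h1]
      simp only [aeval_C, coeff_C_zero]
      have h3 : algebraMap κ N (Q.coeff 0)⁻¹ * algebraMap κ N (Q.coeff 0) = 1 := by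
        rw [← map_mul, inv_mul_cancel₀ h2, map_one]
      linear_combination (-T) * h3
    | succ n ih =>
      intro Q hQ hdeg P h
      by_cases hd0 : Q.degree = 0
      · exact ih Q hQ (by rw [natDegree_eq_of_degree_eq_some hd0]; exact Nat.zero_le _) P h
      obtain ⟨c, hc⟩ := IsAlgClosed.exists_root Q hd0
      obtain ⟨Q1, hQ1⟩ := dvd_iff_isRoot.2 hc
      have hQ1ne : Q1 ≠ 0 := by
        rintro rfl
        rw [mul_zero] at hQ1
        exact hQ hQ1
      have hdeg1 : Q1.natDegree ≤ n := by
        have h1 := natDegree_mul (X_sub_C_ne_zero c) hQ1ne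
        rw [← hQ1, natDegree_X_sub_C] at h1
        omega
      obtain ⟨w, hw, hwt, hwT⟩ := hfin c
      have hPc : P.eval c = 0 := by
        by_contra hne
        have hcomp : aeval (t - algebraMap κ N c) (P.comp (X + C c)) = aeval t P := by
          rw [aeval_comp]
          simp
        have h1 : w (aeval t P) = 1 := by
          rw [← hcomp]
          apply val_aeval_eq_one w hw _ hwt
          rw [coeff_zero_eq_eval_zero, eval_comp]
          simpa using hne
        have h2 : w (aeval t P) < 1 := by
          rw [← h, hQ1]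
          have h3 : T * (aeval t ((X - C c) * Q1)) =
              aeval t Q1 * ((t - algebraMap κ N c) * T) := by
            simp; ring
          rw [h3, map_mul]
          refine (mul_le_of_le_one_left' ?_).trans_lt hwT
          apply val_aeval_le w hw
          have h4 : t = (t - algebraMap κ N c) + algebraMap κ N c := by ring
          rw [h4]
          refine (Valuation.map_add _ _ _).trans (max_le hwt.le ?_)
          by_cases h5 : c = 0
          · rw [h5, map_zero, map_zero]; exact zero_le_one
          · exact (hw _ h5).le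
        exact absurd h1 h2.ne
      obtain ⟨P1, hP1⟩ := dvd_iff_isRoot.2 (show P.IsRoot c from hPc)
      apply ih Q1 hQ1ne hdeg1 P1
      have h1 : aeval t (X - C c : κ[X]) ≠ 0 := fun h2 => X_sub_C_ne_zero c (haux _ h2)
      apply mul_left_cancel₀ h1
      calc aeval t (X - C c : κ[X]) * (T * aeval t Q1) = T * aeval t Q := by
            rw [hQ1, map_mul]; ring
        _ = aeval t P := h
        _ = _ := by rw [hP1, map_mul]
  obtain ⟨r, s, hrs⟩ := (IntermediateField.mem_adjoin_simple_iff κ T).1 hT
  have hpoly : ∃ P' : κ[X], T = aeval t P' := by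
    by_cases hs : s = 0
    · refine ⟨0, ?_⟩
      rw [hrs, hs, map_zero, div_zero]
    · refine key s.natDegree s hs le_rfl r ?_
      rw [hrs, div_mul_cancel₀]
      exact fun h => hs (haux _ h)
  obtain ⟨P, hP⟩ := hpoly
  by_contra hT0
  have hP0 : P ≠ 0 := by
    rintro rfl
    exact hT0 (by rw [hP, map_zero])
  obtain ⟨w, hw, hwt, hwT⟩ := hinf
  have ht0 : t ≠ 0 := by
    rintro rfl
    exact ht isAlgebraic_zero
  have hwt' : 1 < w t := by
    rw [map_inv₀] at hwt
    exact (inv_lt_one₀ (by simpa [zero_lt_iff] using ht0)).1 hwt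
  have hrev : aeval t P = aeval t⁻¹ P.reverse * t ^ P.natDegree := by
    have : Invertible t := invertibleOfNonzero ht0
    have h1 := eval₂_reverse_mul_pow (algebraMap κ N) t P
    rw [invOf_eq_inv] at h1
    exact h1.symm
  have h1 : w T = w t ^ P.natDegree := by
    rw [hP, hrev, map_mul, map_pow, val_aeval_eq_one w hw _ hwt, one_mul]
    rw [coeff_zero_reverse]
    exact leadingCoeff_ne_zero.2 hP0
  rw [map_mul, h1, ← pow_succ'] at hwT
  exact absurd hwT (not_lt.2 (one_le_pow_of_one_le' hwt'.le _))

end poly

section trdeg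

open scoped IntermediateField.algebraAdjoinAdjoin in
theorem algebraic_over_other {κ N : Type*} [Field κ] [Field N] [Algebra κ N] (t u : N)
    (halg : Algebra.IsAlgebraic (IntermediateField.adjoin κ {t}) N) (hu : Transcendental κ u) :
    Algebra.IsAlgebraic (IntermediateField.adjoin κ {u}) N := by
  have h1 : AlgebraicIndependent κ (fun _ : Unit => u) :=
    algebraicIndependent_unique_type_iff.2 hu
  have h2 : Algebra.IsAlgebraic (Algebra.adjoin κ {t}) N :=
    Algebra.IsAlgebraic.trans (Algebra.adjoin κ {t}) (IntermediateField.adjoin κ {t}) N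
  have h3 : Algebra.trdeg κ N ≤ 1 := by
    have := Algebra.IsAlgebraic.trdeg_le_cardinalMk κ ({t} : Set N)
    simpa using this
  have h4 : IsTranscendenceBasis κ (fun _ : Unit => u) := by
    apply h1.isTranscendenceBasis_of_lift_trdeg_le_of_finite
    simpa using h3
  have h5 := h4.isAlgebraic_field
  rwa [Set.range_const] at h5

end trdeg

end Pool.Agent.NagGon
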