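import Mathlib

namespace Pool.Agent.NagGon

open WithZero

/-- One improvement step: the bound `exp (k + 1)` for the values of `θ` on integral elements
gives the bound `exp k` as soon as `0 ≤ k + 1`. -/
theorem local_step {κ N : Type*} [Field κ] [CharZero κ] [Field N] [Algebra κ N]
    (w : Valuation N ℤᵐ⁰) (hc : ∀ c : κ, c ≠ 0 → w (algebraMap κ N c) = 1)
    (hres : ∀ z, w z ≤ 1 → ∃ c : κ, w (z - algebraMap κ N c) < 1)
    (π : N) (hπ : w π = exp (-1 : ℤ))
    (τ : N) (hτ0 : τ ≠ 0) (hτ : w τ < 1)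
    (θ : Derivation κ N N) (hθ : θ τ = τ) (k : ℤ) (hk : 0 ≤ k + 1)
    (hb : ∀ z, w z ≤ 1 → w (θ z) ≤ exp (k + 1)) :
    ∀ z, w z ≤ 1 → w (θ z) ≤ exp k := by
  have hπ0 : π ≠ 0 := by
    intro h
    rw [h, map_zero] at hπ
    exact exp_ne_zero hπ.symm
  obtain ⟨r, hr1, hr⟩ : ∃ r : ℕ, 1 ≤ r ∧ w τ = exp (-(r : ℤ)) := by
    have h0 : w τ ≠ 0 := by simpa using hτ0
    obtain ⟨j, hj⟩ : ∃ j : ℤ, w τ = exp j := ⟨log (w τ), (exp_log h0).symm⟩
    rw [hj, ← exp_zero, exp_lt_exp] at hτ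
    refine ⟨(-j).toNat, by omega, ?_⟩
    rw [hj]
    congr 1
    omega
  obtain ⟨r, rfl⟩ : ∃ r' : ℕ, r = r' + 1 := ⟨r - 1, by omega⟩
  set u : N := τ / π ^ (r + 1) with hu
  have hτu : τ = u * π ^ (r + 1) := by
    rw [hu]; field_simp
  have hwu : w u = 1 := by
    rw [hu, map_div₀, map_pow, hπ, hr, ← exp_nsmul, ← exp_sub, ← exp_zero]
    congr 1
    push_cast
    simp
  have hr0 : w ((r : N) + 1) = 1 := by
    have := hc ((r : κ) + 1) (by exact_mod_cast Nat.succ_ne_zero r)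
    simpa using this
  have h1 : ((r : N) + 1) * u * π ^ r * θ π = τ - π ^ (r + 1) * θ u := by
    have h2 : θ (u * π ^ (r + 1)) = u * π ^ (r + 1) := by rw [← hτu, hθ]
    rw [Derivation.leibniz, Derivation.leibniz_pow] at h2
    simp only [smul_eq_mul, nsmul_eq_mul, Nat.add_sub_cancel] at h2
    rw [hτu]
    push_cast at h2
    linear_combination h2
  have h3 : w (θ π) ≤ exp k := by
    have h4 : w (((r : N) + 1) * u * π ^ r * θ π) ≤ exp (-((r : ℤ) + 1) + (k + 1)) := by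
      rw [h1]
      refine (Valuation.map_sub _ _ _).trans (max_le ?_ ?_)
      · rw [hr]
        apply exp_le_exp.2
        push_cast
        omega
      · rw [map_mul, map_pow, hπ, ← exp_nsmul, exp_add]
        refine mul_le_mul' (le_of_eq ?_) (hb u hwu.le)
        congr 1
        simp
    rw [map_mul, map_mul, map_mul, hr0, hwu, map_pow, hπ, one_mul, one_mul, ← exp_nsmul] at h4
    have h5 : exp (r • (-1 : ℤ)) * w (θ π) ≤ exp (r • (-1 : ℤ)) * exp k := by
      refine h4.trans (le_of_eq ?_)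
      rw [← exp_add]
      congr 1
      simp
      ring
    exact (mul_le_mul_iff_right₀ (by simp)).1 h5
  intro z hz
  obtain ⟨c, hcz⟩ := hres z hz
  set z1 : N := (z - algebraMap κ N c) / π with hz1
  have hz2 : z = algebraMap κ N c + π * z1 := by
    rw [hz1]; field_simp; ring
  have hwz1 : w z1 ≤ 1 := by
    rw [hz1, map_div₀, hπ]
    by_cases h0 : w (z - algebraMap κ N c) = 0
    · rw [h0]; simp
    obtain ⟨j, hj⟩ : ∃ j : ℤ, w (z - algebraMap κ N c) = exp j := ⟨log _, (exp_log h0).symm⟩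
    rw [hj, ← exp_zero, exp_lt_exp] at hcz
    rw [hj, ← exp_sub, ← exp_zero, exp_le_exp]
    omega
  have h6 : θ z = z1 * θ π + π * θ z1 := by
    rw [hz2, map_add, Derivation.map_algebraMap, Derivation.leibniz]
    simp only [smul_eq_mul]
    ring
  rw [h6]
  refine (Valuation.map_add _ _ _).trans (max_le ?_ ?_)
  · rw [map_mul]
    calc w z1 * w (θ π) ≤ 1 * exp k := mul_le_mul' hwz1 h3
      _ = exp k := one_mul _
  · rw [map_mul, hπ]
    calc exp (-1 : ℤ) * w (θ z1) ≤ exp (-1 : ℤ) * exp (k + 1) :=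
          mul_le_mul' le_rfl (hb z1 hwz1)
      _ = exp k := by rw [← exp_add]; congr 1; ring

/-- The logarithmic derivation maps the valuation ring into its maximal ideal. -/
theorem local_lemma {κ N : Type*} [Field κ] [CharZero κ] [Field N] [Algebra κ N]
    (w : Valuation N ℤᵐ⁰) (hc : ∀ c : κ, c ≠ 0 → w (algebraMap κ N c) = 1)
    (hres : ∀ z, w z ≤ 1 → ∃ c : κ, w (z - algebraMap κ N c) < 1)
    (π : N) (hπ : w π = exp (-1 : ℤ))
    (τ : N) (hτ0 : τ ≠ 0) (hτ : w τ < 1)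
    (θ : Derivation κ N N) (hθ : θ τ = τ)
    (δ : N) (hδ : δ ≠ 0) (hb : ∀ z, w z ≤ 1 → w (δ * θ z) ≤ 1) :
    ∀ z, w z ≤ 1 → w (θ z) < 1 := by
  have h0 : w δ ≠ 0 := by simpa using hδ
  obtain ⟨j, hj⟩ : ∃ j : ℤ, w δ = exp j := ⟨log (w δ), (exp_log h0).symm⟩
  have hstart : ∀ z, w z ≤ 1 → w (θ z) ≤ exp ((-j).toNat : ℤ) := by
    intro z hz
    have h1 := hb z hz
    rw [map_mul, hj] at h1
    have h2 : exp j * w (θ z) ≤ exp j * exp (-j) := by
      rw [← exp_add]; simpa using h1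
    have h3 : w (θ z) ≤ exp (-j) := (mul_le_mul_iff_right₀ (by simp)).1 h2
    exact h3.trans (exp_le_exp.2 (by omega))
  have hall : ∀ m : ℕ, (∀ z, w z ≤ 1 → w (θ z) ≤ exp (m : ℤ)) →
      ∀ z, w z ≤ 1 → w (θ z) ≤ exp (0 : ℤ) := by
    intro m
    induction m with
    | zero => intro h; simpa using h
    | succ m ih =>
      intro h
      apply ih
      apply local_step w hc hres π hπ τ hτ0 hτ θ hθ (m : ℤ) (by omega)
      simpa using h
  have h1 := hall _ hstart
  have h2 := local_step w hc hres π hπ τ hτ0 hτ θ hθ (-1) (by omega) (by simpa using h1)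
  intro z hz
  refine (h2 z hz).trans_lt ?_
  rw [← exp_zero, exp_lt_exp]
  omega

end Pool.Agent.NagGon
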