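import Mathlib
import Pool.Agent.NagGon.Local

namespace Pool.Agent.NagGon

open WithZero IsDedekindDomain Polynomial
open scoped IntermediateField.algebraAdjoinAdjoin

section
variable {κ N : Type*} [Field κ] [Field N] [Algebra κ N]

theorem adjoin_pid (τ : N) : IsPrincipalIdealRing (Algebra.adjoin κ {τ}) := by
  have h : Function.Surjective
      ((Polynomial.aeval (⟨τ, Algebra.self_mem_adjoin_singleton κ τ⟩ : Algebra.adjoin κ {τ}) :
        κ[X] →ₐ[κ] Algebra.adjoin κ {τ})) := by
    rintro ⟨x, hx⟩
    have hx' := hx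
    rw [Algebra.adjoin_singleton_eq_range_aeval] at hx'
    obtain ⟨p, hp⟩ := hx'
    refine ⟨p, Subtype.ext ?_⟩
    have := Polynomial.aeval_algebraMap_apply N
      (⟨τ, Algebra.self_mem_adjoin_singleton κ τ⟩ : Algebra.adjoin κ {τ}) p
    exact this.symm.trans hp
  exact IsPrincipalIdealRing.of_surjective _ h

theorem mem_adjoin_iff (τ x : N) :
    x ∈ Algebra.adjoin κ {τ} ↔ ∃ p : κ[X], aeval τ p = x := by
  rw [Algebra.adjoin_singleton_eq_range_aeval]
  rfl

/-- Existence of a good place over `τ = 0`. -/
theorem exists_place [IsAlgClosed κ] [CharZero κ]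
    (τ : N) (hτ : Transcendental κ τ)
    (hfin : FiniteDimensional (IntermediateField.adjoin κ {τ}) N)
    (θ : Derivation κ N N) (hθ : θ τ = τ) :
    ∃ w : Valuation N ℤᵐ⁰, (∀ c : κ, c ≠ 0 → w (algebraMap κ N c) = 1) ∧ w τ < 1 ∧
      ∀ z, w z ≤ 1 → w (θ z) < 1 := by
  have : CharZero N := charZero_of_injective_algebraMap (algebraMap κ N).injective
  have := adjoin_pid (κ := κ) τ
  set A := Algebra.adjoin κ {τ} with hA
  have : IsDedekindDomain A := inferInstance
  have : CharZero (IntermediateField.adjoin κ {τ}) :=
    charZero_of_injective_algebraMap (algebraMap κ _).injective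
  have : IsIntegrallyClosed A := inferInstance
  have hD : IsDedekindDomain (integralClosure A N) :=
    integralClosure.isDedekindDomain A (IntermediateField.adjoin κ {τ}) N
  have hfr : IsFractionRing (integralClosure A N) N :=
    integralClosure.isFractionRing_of_finite_extension (A := A)
      (IntermediateField.adjoin κ {τ}) N
  have hfinB : Module.Finite A (integralClosure A N) :=
    IsIntegralClosure.finite A (IntermediateField.adjoin κ {τ}) N (integralClosure A N)
  set B := integralClosure A N with hB
  have hτ0 : τ ≠ 0 := by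
    rintro rfl
    exact hτ (isAlgebraic_zero)
  let τA : A := ⟨τ, Algebra.self_mem_adjoin_singleton κ τ⟩
  let τB : B := algebraMap A B τA
  have hτB : algebraMap B N τB = τ := rfl
  have hnu : ¬ IsUnit τB := by
    intro hu
    have hu2 : IsUnit τA := isUnit_of_map_unit (algebraMap A B) τA hu
    obtain ⟨s, hs⟩ := hu2.exists_right_inv
    obtain ⟨p, hp⟩ := (mem_adjoin_iff τ (s : N)).1 s.2
    have h1 : τ * (s : N) = 1 := congrArg Subtype.val hs
    have h2 : aeval τ (X * p - 1 : κ[X]) = 0 := by
      simp [hp, h1]
    have h3 : (X * p - 1 : κ[X]) = 0 := by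
      by_contra hne
      exact hτ ⟨_, hne, h2⟩
    have h4 := congrArg (eval 0) h3
    simp at h4
  obtain ⟨P, hPmax, hP⟩ := exists_max_ideal_of_mem_nonunits (a := τB) hnu
  have := hPmax.isPrime
  have hPne : P ≠ ⊥ := by
    intro h
    rw [h, Ideal.mem_bot] at hP
    exact hτ0 (by rw [← hτB, hP, map_zero])
  let v : HeightOneSpectrum B := ⟨P, hPmax.isPrime, hPne⟩
  let w : Valuation N ℤᵐ⁰ := v.valuation N
  have hwB : ∀ b : B, w (algebraMap B N b) ≤ 1 := fun b => v.valuation_le_one b
  have hconst : ∀ c : κ, c ≠ 0 → w (algebraMap κ N c) = 1 := by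
    intro c hc
    have h1 : w (algebraMap κ N c) ≤ 1 := hwB (algebraMap A B (algebraMap κ A c))
    have h2 : w (algebraMap κ N c⁻¹) ≤ 1 := hwB (algebraMap A B (algebraMap κ A c⁻¹))
    have h3 : w (algebraMap κ N c) * w (algebraMap κ N c⁻¹) = 1 := by
      rw [← map_mul, ← map_mul, mul_inv_cancel₀ hc, map_one, map_one]
    exact le_antisymm h1 (by
      rw [← h3]
      exact mul_le_of_le_one_right' h2)
  have hwτ : w τ < 1 := by
    rw [← hτB]
    exact (v.valuation_lt_one_iff_mem τB).2 hP
  -- residues of elements of B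
  have hresB : ∀ b : B, ∃ c : κ, w (algebraMap B N b - algebraMap κ N c) < 1 := by
    intro b
    obtain ⟨q, hqm, hq⟩ : IsIntegral A b := Algebra.IsIntegral.isIntegral b
    -- the reduction of q modulo τ
    have hred : ∀ a : A, ∃ c : κ, algebraMap A B (a - algebraMap κ A c) ∈ P := by
      intro a
      obtain ⟨p, hp⟩ := (mem_adjoin_iff τ (a : N)).1 a.2
      refine ⟨p.coeff 0, ?_⟩
      obtain ⟨p1, hp1⟩ : ∃ p1 : κ[X], p = X * p1 + C (p.coeff 0) := ⟨p.divX, (by
        rw [mul_comm]; exact (divX_mul_X_add p).symm)⟩
      have h1 : a - algebraMap κ A (p.coeff 0) = τA * ⟨aeval τ p1, (mem_adjoin_iff τ _).2 ⟨p1, rfl⟩⟩ := by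
        apply Subtype.ext
        change (a : N) - algebraMap κ N (p.coeff 0) = τ * aeval τ p1
        rw [← hp]
        conv_lhs => rw [hp1]
        simp
      rw [h1, map_mul]
      exact P.mul_mem_right _ hP
    choose ρ hρ using hred
    let q0 : κ[X] := ∑ i ∈ Finset.range (q.natDegree + 1), C (ρ (q.coeff i)) * X ^ i
    have hlead : ρ 1 = 1 := by
      have h1 := hρ 1
      rw [← map_one (algebraMap κ A), ← map_sub] at h1
      by_contra hne
      have h2 : (1 : κ) - ρ ((algebraMap κ A) 1) ≠ 0 := by
        intro h3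
        apply hne
        rw [map_one] at h3
        exact (sub_eq_zero.1 h3).symm
      have h3 : IsUnit (algebraMap A B (algebraMap κ A (1 - ρ ((algebraMap κ A) 1)))) :=
        ((isUnit_iff_ne_zero.2 h2).map _).map _
      exact hPmax.ne_top (Ideal.eq_top_of_isUnit_mem _ h1 h3)
    have hq0ne : q0.coeff q.natDegree = 1 := by
      simp only [q0, finsetSum_coeff, coeff_C_mul, coeff_X_pow]
      rw [Finset.sum_eq_single q.natDegree]
      · simp only [if_true, mul_one]
        have : q.coeff q.natDegree = 1 := hqm
        rw [this, hlead]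
      · intro i _ hi
        rw [if_neg (fun h => hi h.symm), mul_zero]
      · intro h
        exact absurd (Finset.mem_range.2 (Nat.lt_succ_self _)) h
    have hq00 : q0 ≠ 0 := by
      intro h
      rw [h] at hq0ne
      simp at hq0ne
    let algKB : Algebra κ B := ((algebraMap A B).comp (algebraMap κ A)).toAlgebra
    have halg : ∀ c : κ, algebraMap κ B c = algebraMap A B (algebraMap κ A c) := fun c => rfl
    have hmem : aeval b q0 ∈ P := by
      have h1 : aeval b q0 = - ∑ i ∈ Finset.range (q.natDegree + 1),
          algebraMap A B (q.coeff i - algebraMap κ A (ρ (q.coeff i))) * b ^ i := by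
        have h2 : ∑ i ∈ Finset.range (q.natDegree + 1), algebraMap A B (q.coeff i) * b ^ i = 0 := by
          rw [← eval₂_eq_sum_range]
          exact hq
        have h3 : aeval b q0 = ∑ i ∈ Finset.range (q.natDegree + 1),
            algebraMap A B (algebraMap κ A (ρ (q.coeff i))) * b ^ i := by
          simp only [q0, map_sum, map_mul, aeval_C, map_pow, aeval_X, halg]
        rw [h3]
        simp only [map_sub, sub_mul, Finset.sum_sub_distrib, h2]
        ring
      rw [h1]
      exact P.neg_mem (P.sum_mem fun i _ => P.mul_mem_right _ (hρ _))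
    -- factor q0
    have hsplit := (IsAlgClosed.splits q0).eq_prod_roots
    have hmem2 : ∃ c ∈ q0.roots, b - algebraMap κ B c ∈ P := by
      by_contra hcon
      push Not at hcon
      have h1 : aeval b q0 = algebraMap κ B q0.leadingCoeff *
          (q0.roots.map fun c => b - algebraMap κ B c).prod := by
        conv_lhs => rw [hsplit]
        rw [map_mul, aeval_C, map_multiset_prod, Multiset.map_map]
        congr 2
        apply Multiset.map_congr rfl
        intro c _
        simp
      rw [h1] at hmem
      rcases hPmax.isPrime.mem_or_mem hmem with h2 | h2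
      · have h3 : IsUnit (algebraMap κ B q0.leadingCoeff) :=
          (isUnit_iff_ne_zero.2 (leadingCoeff_ne_zero.2 hq00)).map _
        exact hPmax.ne_top (Ideal.eq_top_of_isUnit_mem _ h2 h3)
      · have h3 : ∀ s : Multiset κ, (∀ c ∈ s, b - algebraMap κ B c ∉ P) →
            (s.map fun c => b - algebraMap κ B c).prod ∉ P := by
          intro s
          induction s using Multiset.induction_on with
          | empty =>
            intro _ h
            simp only [Multiset.map_zero, Multiset.prod_zero] at h
            exact hPmax.ne_top ((Ideal.eq_top_iff_one _).2 h)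
          | cons c s ih =>
            intro h h4
            rw [Multiset.map_cons, Multiset.prod_cons] at h4
            rcases hPmax.isPrime.mem_or_mem h4 with h5 | h5
            · exact h c (Multiset.mem_cons_self _ _) h5
            · exact ih (fun c' hc' => h c' (Multiset.mem_cons_of_mem hc')) h5
        exact h3 _ hcon h2
    obtain ⟨c, _, hc⟩ := hmem2
    refine ⟨c, ?_⟩
    have h9 := (v.valuation_lt_one_iff_mem (K := N) (b - algebraMap κ B c)).2 hc
    have h10 : algebraMap B N b - algebraMap κ N c = algebraMap B N (b - algebraMap κ B c) := by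
      rw [map_sub]; rfl
    rw [h10]
    exact h9
  have hres : ∀ z, w z ≤ 1 → ∃ c : κ, w (z - algebraMap κ N c) < 1 := by
    intro z hz
    obtain ⟨b, hb⟩ := v.exists_valuation_sub_lt_of_integer (K := N) hz 1
    obtain ⟨c, hc⟩ := hresB b
    refine ⟨c, ?_⟩
    have : z - algebraMap κ N c = (algebraMap B N b - algebraMap κ N c) -
        (algebraMap B N b - z) := by ring
    rw [this]
    exact (Valuation.map_sub w _ _).trans_lt (max_lt hc hb)
  obtain ⟨π, hπ⟩ := v.valuation_exists_uniformizer N
  -- a priori bound
  have hApoly : ∀ a : A, ∃ a' : A, θ (algebraMap A N a) = algebraMap A N a' := by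
    intro a
    obtain ⟨p, hp⟩ := (mem_adjoin_iff τ (a : N)).1 a.2
    refine ⟨⟨aeval τ (derivative p) * τ, Subalgebra.mul_mem _ ((mem_adjoin_iff τ _).2 ⟨_, rfl⟩)
      (Algebra.self_mem_adjoin_singleton κ τ)⟩, ?_⟩
    change θ (a : N) = aeval τ (derivative p) * τ
    rw [← hp, Derivation.map_aeval, hθ, smul_eq_mul]
  obtain ⟨S, hS⟩ := hfinB.fg_top
  obtain ⟨δ, hδ⟩ := IsLocalization.exist_integer_multiples (nonZeroDivisors B) S
    (fun b => θ (algebraMap B N b))
  have hbB : ∀ b : B, ∃ b' : B, algebraMap B N δ * θ (algebraMap B N b) = algebraMap B N b' := by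
    intro b
    have hb : b ∈ Submodule.span A (S : Set B) := by rw [hS]; trivial
    induction hb using Submodule.span_induction with
    | mem x hx =>
      obtain ⟨b', hb'⟩ := hδ x hx
      refine ⟨b', ?_⟩
      rw [hb', Algebra.smul_def]
    | zero => exact ⟨0, by simp⟩
    | add x y _ _ hx hy =>
      obtain ⟨x', hx'⟩ := hx
      obtain ⟨y', hy'⟩ := hy
      refine ⟨x' + y', ?_⟩
      rw [map_add, map_add, map_add, mul_add, hx', hy']
    | smul a x _ hx =>
      obtain ⟨x', hx'⟩ := hx
      obtain ⟨a', ha'⟩ := hApoly a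
      refine ⟨algebraMap A B a * x' + δ * x * algebraMap A B a', ?_⟩
      have h1 : algebraMap B N (a • x) = algebraMap A N a * algebraMap B N x := by
        rw [Algebra.smul_def, map_mul]; rfl
      have h2 : algebraMap B N (algebraMap A B a) = algebraMap A N a := rfl
      have h3 : algebraMap B N (algebraMap A B a') = algebraMap A N a' := rfl
      rw [h1, Derivation.leibniz, ha']
      simp only [smul_eq_mul, map_add, map_mul, h2, h3, ← hx']
      ring
  refine ⟨w, hconst, hwτ, local_lemma w hconst hres π hπ τ hτ0 hwτ θ hθ (algebraMap B N δ) ?_ ?_⟩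
  · exact (map_ne_zero_iff _ (IsFractionRing.injective B N)).2 (nonZeroDivisors.ne_zero δ.2)
  · intro z hz
    obtain ⟨n, ⟨d, hd⟩, hnd⟩ := v.exists_primeCompl_mul_eq_of_integer (K := N) z hz
    have hwd : w (algebraMap B N d) = 1 := v.valuation_eq_one_iff_notMem.2 hd
    obtain ⟨n', hn'⟩ := hbB n
    obtain ⟨d', hd'⟩ := hbB d
    have h1 : algebraMap B N δ * θ z * algebraMap B N d =
        algebraMap B N n' - z * algebraMap B N d' := by
      have h2 := congrArg θ hnd
      rw [Derivation.leibniz] at h2
      simp only [smul_eq_mul] at h2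
      rw [← hn', ← hd', ← h2]
      ring
    have h3 : w (algebraMap B N δ * θ z * algebraMap B N d) ≤ 1 := by
      rw [h1]
      refine (Valuation.map_sub _ _ _).trans (max_le (hwB _) ?_)
      rw [map_mul]
      exact mul_le_one' hz (hwB _)
    rwa [map_mul, hwd, mul_one] at h3

end

end Pool.Agent.NagGon
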