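import Mathlib

namespace Pool.Agent.NagGon

theorem mul_lt_one_aux {Γ : Type*} [LinearOrderedCommGroupWithZero Γ] {p q : Γ}
    (hp : p ≤ 1) (hq : q < 1) : p * q < 1 :=
  (mul_le_of_le_one_left' hp).trans_lt hq

theorem eq_one_of_pow_aux {Γ : Type*} [LinearOrderedCommGroupWithZero Γ] {p : Γ} {n : ℕ}
    (hn : n ≠ 0) (h : p ^ n = 1) : p = 1 := by
  rcases lt_trichotomy p 1 with h1 | h1 | h1
  · exact absurd h (pow_lt_one' h1 hn).ne
  · exact h1
  · exact absurd h (one_lt_pow' h1 hn).ne'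

/-- Regularity of the differential `x^a y^b dx / y^(e-1)` on the Fermat curve, `a + b ≤ e - 3`. -/
theorem pole_lemma {κ N : Type*} [Field κ] [Field N] [CharZero N] [Algebra κ N]
    {Γ : Type*} [LinearOrderedCommGroupWithZero Γ]
    (w : Valuation N Γ) (θ : Derivation κ N N) (hθ : ∀ z, w z ≤ 1 → w (θ z) < 1)
    (e : ℕ) (a b : ℕ) (hab : a + b + 3 ≤ e) (x y : N) (hx : x ≠ 0) (hy : y ≠ 0)
    (hxy : x ^ e + y ^ e = 1) :
    w (x ^ a * y ^ b * θ x / y ^ (e - 1)) < 1 := by
  have he : e ≠ 0 := by omega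
  obtain ⟨e', rfl⟩ : ∃ e', e = e' + 1 := ⟨e - 1, by omega⟩
  have hd : x ^ e' * θ x = - (y ^ e' * θ y) := by
    have h1 := congrArg θ hxy
    rw [map_add, Derivation.leibniz_pow, Derivation.leibniz_pow, Derivation.map_one_eq_zero] at h1
    simp only [smul_eq_mul, nsmul_eq_mul, Nat.add_sub_cancel] at h1
    have h2 : ((e' + 1 : ℕ) : N) ≠ 0 := by exact_mod_cast Nat.succ_ne_zero e'
    have h3 : ((e' + 1 : ℕ) : N) * (x ^ e' * θ x + y ^ e' * θ y) = 0 := by
      linear_combination h1
    have h4 := (mul_eq_zero.1 h3).resolve_left h2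
    linear_combination h4
  have hpow1 : ∀ (z : N) (n : ℕ), n ≠ 0 → w (z ^ n) = 1 → w z = 1 := by
    intro z n hn h
    rw [map_pow] at h
    exact eq_one_of_pow_aux hn h
  simp only [Nat.add_sub_cancel]
  by_cases h : w x ≤ 1
  · have hwy : w y ≤ 1 := by
      by_contra hcon
      have hcon' : 1 < w y := not_le.1 hcon
      have h1 : w (y ^ (e' + 1)) ≤ 1 := by
        have : y ^ (e' + 1) = 1 - x ^ (e' + 1) := by rw [← hxy]; ring
        rw [this]
        refine (Valuation.map_sub _ _ _).trans (max_le (by simp) ?_)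
        rw [map_pow]
        exact pow_le_one' h _
      rw [map_pow] at h1
      exact absurd h1 (not_le.2 (one_lt_pow' hcon' (Nat.succ_ne_zero e')))
    rcases hwy.lt_or_eq with hy1 | hy1
    · -- `y` in the maximal ideal
      have hx1 : w x = 1 := by
        apply hpow1 x (e' + 1) (Nat.succ_ne_zero e')
        have : x ^ (e' + 1) = 1 - y ^ (e' + 1) := by rw [← hxy]; ring
        rw [this, Valuation.map_sub_eq_of_lt_left, map_one]
        rw [map_one, map_pow]
        exact pow_lt_one' hy1 (Nat.succ_ne_zero e')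
      have h1 : x ^ a * y ^ b * θ x / y ^ e' = - (x ^ a * y ^ b * θ y / x ^ e') := by
        field_simp
        linear_combination hd
      rw [h1, Valuation.map_neg, map_div₀, map_mul, map_mul, map_pow, map_pow, map_pow, hx1]
      simp only [one_pow, one_mul, div_one]
      exact mul_lt_one_aux (pow_le_one' hwy _) (hθ y hwy)
    · rw [map_div₀, map_mul, map_mul, map_pow, map_pow, map_pow, hy1]
      simp only [one_pow, mul_one, div_one]
      exact mul_lt_one_aux (pow_le_one' h _) (hθ x h)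
  · have h' : 1 < w x := not_le.1 h
    obtain ⟨s, hs⟩ : ∃ s : N, s = x⁻¹ := ⟨_, rfl⟩
    obtain ⟨u, hu⟩ : ∃ u : N, u = y / x := ⟨_, rfl⟩
    have hws : w s < 1 := by
      rw [hs, map_inv₀]
      exact inv_lt_one_of_one_lt₀ h'
    have hwu : w u = 1 := by
      apply hpow1 u (e' + 1) (Nat.succ_ne_zero e')
      have h1 : u ^ (e' + 1) = s ^ (e' + 1) - 1 := by
        rw [hu, hs, div_pow, inv_pow]
        have : y ^ (e' + 1) = 1 - x ^ (e' + 1) := by rw [← hxy]; ring
        rw [this]
        field_simp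
      rw [h1, Valuation.map_sub_eq_of_lt_right, map_one]
      rw [map_one, map_pow]
      exact pow_lt_one' hws (Nat.succ_ne_zero e')
    have hu0 : u ≠ 0 := hu ▸ div_ne_zero hy hx
    have hs0 : s ≠ 0 := hs ▸ inv_ne_zero hx
    have hθs : θ x = - (θ s * x ^ 2) := by
      have h1 : θ (x * s) = 0 := by
        rw [hs, mul_inv_cancel₀ hx, Derivation.map_one_eq_zero]
      rw [Derivation.leibniz] at h1
      simp only [smul_eq_mul] at h1
      have h2 : x * s = 1 := by rw [hs, mul_inv_cancel₀ hx]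
      linear_combination x * h1 - θ x * h2
    obtain ⟨k, hk⟩ : ∃ k, e' = a + b + 2 + k := ⟨e' - (a + b + 2), by omega⟩
    have hyu : y = u * x := by rw [hu]; field_simp
    have h1 : x ^ a * y ^ b * θ x / y ^ e' = - (u ^ b / u ^ e' * s ^ k * θ s) := by
      have h2 : s ^ k = (x ^ k)⁻¹ := by rw [hs, inv_pow]
      rw [h2, hθs, hyu, hk]
      generalize θ s = q
      rw [div_eq_iff (pow_ne_zero _ (mul_ne_zero hu0 hx))]
      have h3 : u ^ b / u ^ (a + b + 2 + k) * (u * x) ^ (a + b + 2 + k) =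
          u ^ b * x ^ (a + b + 2 + k) := by
        rw [mul_pow]; field_simp
      have h4 : (x ^ k)⁻¹ * x ^ (a + b + 2 + k) = x ^ (a + b + 2) := by
        rw [pow_add x (a + b + 2) k]; field_simp
      calc x ^ a * (u * x) ^ b * -(q * x ^ 2) = - (u ^ b * x ^ (a + b + 2) * q) := by ring
        _ = - (u ^ b * ((x ^ k)⁻¹ * x ^ (a + b + 2 + k)) * q) := by rw [h4]
        _ = - ((x ^ k)⁻¹ * (u ^ b * x ^ (a + b + 2 + k)) * q) := by ring
        _ = _ := by rw [← h3]; ring
    rw [h1, Valuation.map_neg, map_mul, map_mul, map_div₀, map_pow, map_pow, map_pow, hwu]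
    simp only [one_pow, div_one, one_mul]
    exact mul_lt_one_aux (pow_le_one' hws.le _) (hθ s hws.le)

end Pool.Agent.NagGon
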