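import Mathlib
import Pool.Agent.NagGon.Place
import Pool.Agent.NagGon.Deriv
import Pool.Agent.NagGon.Pole
import Pool.Agent.NagGon.Field

namespace Pool.Agent.NagGon

open Polynomial

section
variable {κ K₀ M N : Type*} [Field κ] [Field K₀] [Field M] [Field N]
  [Algebra κ K₀] [Algebra K₀ M] [Algebra κ M] [IsScalarTower κ K₀ M]
  [Algebra K₀ N] [Algebra κ N] [IsScalarTower κ K₀ N]

theorem mem_adjoin_of_base (t : K₀) (hgen : IntermediateField.adjoin κ {t} = ⊤) (z : K₀) :
    algebraMap K₀ N z ∈ IntermediateField.adjoin κ {algebraMap K₀ N t} := by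
  have hz : z ∈ IntermediateField.adjoin κ {t} := by rw [hgen]; trivial
  have h1 : (IsScalarTower.toAlgHom κ K₀ N) z ∈
      (IntermediateField.adjoin κ {t}).map (IsScalarTower.toAlgHom κ K₀ N) := ⟨z, hz, rfl⟩
  rw [IntermediateField.adjoin_map] at h1
  simpa using h1

omit [Algebra κ K₀] [Algebra κ M] [IsScalarTower κ K₀ M] [Algebra κ N] [IsScalarTower κ K₀ N]
  [Field κ] in
/-- The conjugates of a pair `(x, y)`. -/
theorem exists_orb [CharZero K₀] [FiniteDimensional K₀ M] (x y : M) :
    ∃ O : Finset (N × N), (∀ p, p ∈ O ↔ ∃ φ : M →ₐ[K₀] N, p = (φ x, φ y)) ∧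
      O.card ≤ Module.finrank K₀ M := by
  classical
  have : Algebra.IsSeparable K₀ M := inferInstance
  have hfin : Finite (M →ₐ[K₀] N) := inferInstance
  let : Fintype (M →ₐ[K₀] N) := Fintype.ofFinite _
  refine ⟨Finset.univ.image (fun φ : M →ₐ[K₀] N => (φ x, φ y)), ?_, ?_⟩
  · intro p
    simp only [Finset.mem_image, Finset.mem_univ, true_and]
    constructor
    · rintro ⟨φ, rfl⟩; exact ⟨φ, rfl⟩
    · rintro ⟨φ, rfl⟩; exact ⟨φ, rfl⟩
  · refine Finset.card_image_le.trans ?_
    rw [Finset.card_univ, ← Nat.card_eq_fintype_card]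
    have h1 : Nat.card (M →ₐ[K₀] AlgebraicClosure N) = Module.finrank K₀ M :=
      AlgHom.natCard_of_splits K₀ M (AlgebraicClosure N) (fun _ => IsAlgClosed.splits _)
    rw [← h1]
    have : Finite (M →ₐ[K₀] AlgebraicClosure N) := inferInstance
    apply Nat.card_le_card_of_injective
      (fun φ : M →ₐ[K₀] N => (IsScalarTower.toAlgHom K₀ N (AlgebraicClosure N)).comp φ)
    intro φ ψ h
    ext z
    have h2 := DFunLike.congr_fun h z
    exact (algebraMap N (AlgebraicClosure N)).injective h2

end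

section
variable {κ K₀ M N : Type*} [Field κ] [IsAlgClosed κ] [CharZero κ] [Field K₀] [Field M] [Field N]
  [Algebra κ K₀] [Algebra K₀ M] [Algebra κ M] [IsScalarTower κ K₀ M]
  [Algebra K₀ N] [Algebra κ N] [IsScalarTower κ K₀ N]

omit [IsAlgClosed κ] in
theorem deriv_comm [FiniteDimensional K₀ N]
    (t : K₀) (hgen : IntermediateField.adjoin κ {t} = ⊤)
    (D : Derivation κ N N) (hD : D (algebraMap K₀ N t) = 1) (σ : N ≃ₐ[K₀] N) (z : N) :
    D (σ z) = σ (D z) := by
  have : CharZero N := charZero_of_injective_algebraMap (algebraMap κ N).injective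
  let E : Derivation κ N N := Derivation.mk'
    { toFun := fun z => σ (D (σ.symm z)) - D z
      map_add' := by intro a b; simp only [map_add]; ring
      map_smul' := by
        intro c a
        have h1 : σ.symm (c • a) = c • σ.symm a := by
          rw [Algebra.smul_def, Algebra.smul_def, map_mul,
            IsScalarTower.algebraMap_apply κ K₀ N, AlgEquiv.commutes]
        have h2 : ∀ b, σ (c • b) = c • σ b := by
          intro b
          rw [Algebra.smul_def, Algebra.smul_def, map_mul,
            IsScalarTower.algebraMap_apply κ K₀ N, AlgEquiv.commutes]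
        simp only [h1, Derivation.map_smul, h2, RingHom.id_apply, smul_sub] }
    (by
      intro a b
      change σ (D (σ.symm (a * b))) - D (a * b) =
        a • (σ (D (σ.symm b)) - D b) + b • (σ (D (σ.symm a)) - D a)
      simp only [map_mul, Derivation.leibniz, smul_eq_mul, map_add, AlgEquiv.apply_symm_apply]
      ring)
  have hE : ∀ z, E z = σ (D (σ.symm z)) - D z := fun _ => rfl
  have hfin := finite_over_adjoin (κ := κ) (N := N) t hgen
  have h1 : E (σ z) = 0 := by
    apply deriv_zero E (algebraMap K₀ N t)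
    · rw [hE, AlgEquiv.commutes, hD, map_one, sub_self]
    · exact Algebra.IsAlgebraic.isAlgebraic _
  rw [hE, AlgEquiv.symm_apply_apply] at h1
  exact (sub_eq_zero.1 h1).symm

theorem core [FiniteDimensional K₀ M] [FiniteDimensional K₀ N] [IsGalois K₀ N]
    (φ₀ : M →ₐ[K₀] N)
    (t : K₀) (ht : Transcendental κ t) (hgen : IntermediateField.adjoin κ {t} = ⊤)
    (e : ℕ) (hl : Module.finrank K₀ M + 2 ≤ e) (x y : M) (hxy : x ^ e + y ^ e = 1) :
    ¬ Transcendental κ x := by
  classical
  intro hx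
  have hchN : CharZero N := charZero_of_injective_algebraMap (algebraMap κ N).injective
  have hchK : CharZero K₀ := charZero_of_injective_algebraMap (algebraMap κ K₀).injective
  set t' : N := algebraMap K₀ N t with ht'
  have htr : Transcendental κ t' := by
    have := (transcendental_algebraMap_iff (R := κ) (S := K₀) (A := N)
      (algebraMap K₀ N).injective (a := t)).2 ht
    exact this
  have hfin := finite_over_adjoin (κ := κ) (N := N) t hgen
  obtain ⟨D, hD⟩ := exists_derivation t' htr inferInstance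
  obtain ⟨O, hO, hcard⟩ := exists_orb (K₀ := K₀) (N := N) x y
  have hrank : 1 ≤ Module.finrank K₀ M := Module.finrank_pos
  have he3 : 3 ≤ e := by omega
  -- facts about the conjugates
  have hφtr : ∀ φ : M →ₐ[K₀] N, Transcendental κ (φ x) := by
    intro φ
    have h1 : Transcendental κ ((φ.restrictScalars κ) x) := by
      intro h2
      exact hx ((isAlgebraic_algHom_iff (φ.restrictScalars κ) φ.injective).1 h2)
    exact h1
  have hP1 : ∀ p ∈ O, Transcendental κ p.1 := by
    intro p hp
    obtain ⟨φ, rfl⟩ := (hO p).1 hp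
    exact hφtr φ
  have hP2 : ∀ p ∈ O, p.1 ^ e + p.2 ^ e = 1 := by
    intro p hp
    obtain ⟨φ, rfl⟩ := (hO p).1 hp
    change φ x ^ e + φ y ^ e = 1
    rw [← map_pow, ← map_pow, ← map_add, hxy, map_one]
  have hP3 : ∀ p ∈ O, p.1 ≠ 0 := by
    intro p hp h
    have := hP1 p hp
    rw [h] at this
    exact this isAlgebraic_zero
  have hP4 : ∀ p ∈ O, p.2 ≠ 0 := by
    intro p hp h
    have h1 := hP2 p hp
    rw [h, zero_pow (by omega), add_zero] at h1
    apply hP1 p hp
    refine ⟨X ^ e - 1, ?_, by simp [h1]⟩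
    have := (X_pow_sub_C_ne_zero (R := κ) (by omega : 0 < e) 1)
    simpa using this
  let lam : N × N → N := fun p => D p.1 / p.2 ^ (e - 1)
  let T : ℕ → ℕ → N := fun a b => ∑ p ∈ O, p.1 ^ a * p.2 ^ b * D p.1 / p.2 ^ (e - 1)
  have hTmem : ∀ a b, T a b ∈ IntermediateField.adjoin κ {t'} := by
    intro a b
    have h1 : T a b ∈ (⊥ : IntermediateField K₀ N) := by
      rw [IsGalois.mem_bot_iff_fixed]
      intro σ
      simp only [T, map_sum]
      refine Finset.sum_bij' (fun p _ => (σ p.1, σ p.2)) (fun p _ => (σ.symm p.1, σ.symm p.2))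
        ?_ ?_ ?_ ?_ ?_
      · intro p hp
        obtain ⟨φ, rfl⟩ := (hO p).1 hp
        exact (hO _).2 ⟨(σ : N →ₐ[K₀] N).comp φ, rfl⟩
      · intro p hp
        obtain ⟨φ, rfl⟩ := (hO p).1 hp
        exact (hO _).2 ⟨(σ.symm : N →ₐ[K₀] N).comp φ, rfl⟩
      · intro p _; simp
      · intro p _; simp
      · intro p _
        simp only [map_div₀, map_mul, map_pow, deriv_comm t hgen D hD σ]
    obtain ⟨z, hz⟩ := IntermediateField.mem_bot.1 h1
    rw [← hz]
    exact mem_adjoin_of_base t hgen z
  -- general place estimate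
  have hplace : ∀ (θ : Derivation κ N N) (q : N) (w : Valuation N (WithZero (Multiplicative ℤ))),
      (∀ z, θ z = q * D z) → (∀ z, w z ≤ 1 → w (θ z) < 1) → ∀ a b, a + b + 3 ≤ e →
      w (q * T a b) < 1 := by
    intro θ q w hq hw a b hab
    have h1 : q * T a b = ∑ p ∈ O, p.1 ^ a * p.2 ^ b * θ p.1 / p.2 ^ (e - 1) := by
      simp only [T, Finset.mul_sum, hq]
      refine Finset.sum_congr rfl fun p _ => ?_
      ring
    rw [h1]
    refine Valuation.map_sum_lt w one_ne_zero fun p hp => ?_
    exact pole_lemma w θ hw e a b hab p.1 p.2 (hP3 p hp) (hP4 p hp) (hP2 p hp)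
  have hT0 : ∀ a b, a + b + 3 ≤ e → T a b = 0 := by
    intro a b hab
    apply zero_of_places t' htr (T a b) (hTmem a b)
      (Γ := WithZero (Multiplicative ℤ))
    · intro c
      have hfc := finite_over_adjoin (κ := κ) (N := N) _ (gen_sub t hgen c)
      have hτ : algebraMap K₀ N (t - algebraMap κ K₀ c) = t' - algebraMap κ N c := by
        rw [map_sub, ← IsScalarTower.algebraMap_apply κ K₀ N]
      rw [hτ] at hfc
      have htrc : Transcendental κ (t' - algebraMap κ N c) := by
        intro h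
        apply htr
        have h2 := h.add (isAlgebraic_algebraMap (A := N) c)
        simpa using h2
      obtain ⟨w, hw1, hw2, hw3⟩ := exists_place (t' - algebraMap κ N c) htrc hfc
        ((t' - algebraMap κ N c) • D) (by
          rw [Derivation.smul_apply, map_sub, hD, Derivation.map_algebraMap]
          simp)
      refine ⟨w, hw1, hw2, ?_⟩
      exact hplace ((t' - algebraMap κ N c) • D) _ w (fun z => rfl) hw3 a b hab
    · have hfc := finite_over_adjoin (κ := κ) (N := N) _ (gen_inv t hgen)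
      rw [map_inv₀] at hfc
      have ht0 : t' ≠ 0 := by
        intro h
        rw [h] at htr
        exact htr isAlgebraic_zero
      have htrc : Transcendental κ t'⁻¹ := by
        intro h
        apply htr
        simpa using h.inv
      obtain ⟨w, hw1, hw2, hw3⟩ := exists_place t'⁻¹ htrc hfc
        ((-t') • D) (by
          rw [Derivation.smul_apply, Derivation.leibniz_inv, hD]
          simp only [smul_eq_mul, mul_one]
          field_simp)
      refine ⟨w, hw1, hw2, ?_⟩
      have := hplace ((-t') • D) _ w (fun z => rfl) hw3 a b hab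
      rwa [neg_mul, Valuation.map_neg] at this
  -- isolate one conjugate
  set p₀ : N × N := (φ₀ x, φ₀ y) with hp₀
  have hp₀O : p₀ ∈ O := (hO _).2 ⟨φ₀, rfl⟩
  have hline : ∀ q : N × N, ∃ α β γ : N, (q ≠ p₀ → α * p₀.1 + β * p₀.2 + γ ≠ 0) ∧
      α * q.1 + β * q.2 + γ = 0 := by
    intro q
    by_cases h1 : q.1 = p₀.1
    · refine ⟨0, 1, - q.2, ?_, by ring⟩
      intro hne h2
      apply hne
      refine Prod.ext h1 ?_
      linear_combination -h2
    · refine ⟨1, 0, -q.1, ?_, by ring⟩
      intro _ h2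
      apply h1
      linear_combination -h2
  choose α β γ hℓ1 hℓ2 using hline
  let ℓ : N × N → N × N → N := fun q p => α q * p.1 + β q * p.2 + γ q
  have hiso : ∀ S : Finset (N × N), ∀ a b, a + b + 3 + S.card ≤ e →
      ∑ p ∈ O, (p.1 ^ a * p.2 ^ b * D p.1 / p.2 ^ (e - 1)) * ∏ q ∈ S, ℓ q p = 0 := by
    intro S
    induction S using Finset.induction_on with
    | empty =>
      intro a b hab
      simpa using hT0 a b (by simpa using hab)
    | insert q S hq ih =>
      intro a b hab
      rw [Finset.card_insert_of_notMem hq] at hab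
      have h1 := ih (a + 1) b (by omega)
      have h2 := ih a (b + 1) (by omega)
      have h3 := ih a b (by omega)
      have h4 : ∑ p ∈ O, (p.1 ^ a * p.2 ^ b * D p.1 / p.2 ^ (e - 1)) * ∏ r ∈ insert q S, ℓ r p =
          α q * (∑ p ∈ O, (p.1 ^ (a + 1) * p.2 ^ b * D p.1 / p.2 ^ (e - 1)) * ∏ r ∈ S, ℓ r p) +
          β q * (∑ p ∈ O, (p.1 ^ a * p.2 ^ (b + 1) * D p.1 / p.2 ^ (e - 1)) * ∏ r ∈ S, ℓ r p) +
          γ q * (∑ p ∈ O, (p.1 ^ a * p.2 ^ b * D p.1 / p.2 ^ (e - 1)) * ∏ r ∈ S, ℓ r p) := by
        rw [Finset.mul_sum, Finset.mul_sum, Finset.mul_sum, ← Finset.sum_add_distrib,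
          ← Finset.sum_add_distrib]
        refine Finset.sum_congr rfl fun p _ => ?_
        rw [Finset.prod_insert hq]
        simp only [ℓ]
        ring
      rw [h4, h1, h2, h3]
      ring
  have h1 := hiso (O.erase p₀) 0 0 (by
    rw [Finset.card_erase_of_mem hp₀O]
    have : 1 ≤ O.card := Finset.card_pos.2 ⟨_, hp₀O⟩
    omega)
  rw [Finset.sum_eq_single_of_mem p₀ hp₀O (by
    intro p hp hne
    have h2 : ∏ q ∈ O.erase p₀, ℓ q p = 0 :=
      Finset.prod_eq_zero (Finset.mem_erase.2 ⟨hne, hp⟩) (hℓ2 p)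
    rw [h2, mul_zero])] at h1
  have h2 : ∏ q ∈ O.erase p₀, ℓ q p₀ ≠ 0 :=
    Finset.prod_ne_zero_iff.2 fun q hq => hℓ1 q (Finset.ne_of_mem_erase hq)
  have h3 : D p₀.1 = 0 := by
    have h4 := (mul_eq_zero.1 h1).resolve_right h2
    have h5 : p₀.2 ^ (e - 1) ≠ 0 := pow_ne_zero _ (hP4 _ hp₀O)
    rw [div_eq_zero_iff] at h4
    have h6 := h4.resolve_right h5
    simpa using h6
  -- `D` kills `κ(x)` hence `t`
  have h4 : IsAlgebraic (IntermediateField.adjoin κ {p₀.1}) t' := by
    have h6 := algebraic_over_other t' p₀.1 inferInstance (hφtr φ₀)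
    exact h6.isAlgebraic t'
  have h5 := deriv_zero D p₀.1 h3 t' h4
  rw [hD] at h5
  exact one_ne_zero h5

end

end Pool.Agent.NagGon
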