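import Mathlib
import Pool.Agent.NagGon.Fermat

namespace Pool.Agent.NagGon

open Polynomial

/-- The Fermat curve of degree `e` is not dominated by a curve of gonality at most `e - 2`. -/
theorem fermat_gonality {κ M : Type*} [Field κ] [IsAlgClosed κ] [CharZero κ] [Field M]
    [Algebra κ M] (t : M) (ht : Transcendental κ t) (e : ℕ)
    (hfin : FiniteDimensional (IntermediateField.adjoin κ {t}) M)
    (hl : Module.finrank (IntermediateField.adjoin κ {t}) M + 2 ≤ e)
    (x y : M) (hxy : x ^ e + y ^ e = 1) : ¬ Transcendental κ x := by
  have hchM : CharZero M := charZero_of_injective_algebraMap (algebraMap κ M).injective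
  let K₀ := IntermediateField.adjoin κ {t}
  have hchK : CharZero K₀ := charZero_of_injective_algebraMap (algebraMap κ K₀).injective
  let t₀ : K₀ := IntermediateField.AdjoinSimple.gen κ t
  have hgen : IntermediateField.adjoin κ {t₀} = ⊤ := by
    apply IntermediateField.lift_injective K₀
    rw [IntermediateField.lift_adjoin_simple, IntermediateField.lift_top]
    rfl
  have ht₀ : Transcendental κ t₀ := by
    have := (transcendental_algebraMap_iff (R := κ) (S := K₀) (A := M)
      (algebraMap K₀ M).injective (a := t₀)).1
    exact this ht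
  have h01 : Algebra.IsAlgebraic K₀ (AlgebraicClosure M) := Algebra.IsAlgebraic.trans K₀ M _
  have h02 : IsAlgClosure K₀ (AlgebraicClosure M) := ⟨inferInstance, inferInstance⟩
  have h03 : Normal K₀ (AlgebraicClosure M) := IsAlgClosure.normal K₀ (AlgebraicClosure M)
  let N := IntermediateField.normalClosure K₀ M (AlgebraicClosure M)
  have h1 : Normal K₀ N := inferInstance
  have h2 : FiniteDimensional K₀ N := inferInstance
  have h3 : Algebra.IsSeparable K₀ N := inferInstance
  have h4 : IsGalois K₀ N := ⟨⟩
  have h5 : IsScalarTower κ K₀ N := inferInstance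
  exact core (κ := κ) (K₀ := K₀) (M := M) (N := N) (IsScalarTower.toAlgHom K₀ M N) t₀ ht₀ hgen e
    hl x y hxy

end Pool.Agent.NagGon
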