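import Mathlib

namespace Pool.Agent.NagGon

open Polynomial

section
variable {K L Γ : Type*} [Field K] [Field L] [Algebra K L] [LinearOrderedCommGroupWithZero Γ]

/-- `z` and `z'` differ by a factor in `1 + m`. -/
def Appr (w : Valuation L Γ) (z z' : L) : Prop := w (z - z') < w z'

theorem Appr.val_eq {w : Valuation L Γ} {z z' : L} (h : Appr w z z') : w z = w z' := by
  have h1 : z = (z - z') + z' := by ring
  rw [h1]
  exact Valuation.map_add_eq_of_lt_right _ h

theorem Appr.pos {w : Valuation L Γ} {z z' : L} (h : Appr w z z') : 0 < w z' :=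
  lt_of_le_of_lt (zero_le) h

theorem Appr.ne_zero' {w : Valuation L Γ} {z z' : L} (h : Appr w z z') : z' ≠ 0 := by
  rintro rfl
  have := h.pos
  simp at this

theorem Appr.ne_zero {w : Valuation L Γ} {z z' : L} (h : Appr w z z') : z ≠ 0 := by
  rintro rfl
  have := h.val_eq
  rw [map_zero] at this
  exact h.pos.ne this

theorem appr_refl (w : Valuation L Γ) {z : L} (hz : z ≠ 0) : Appr w z z := by
  unfold Appr
  rw [sub_self, map_zero, zero_lt_iff, Ne, Valuation.zero_iff]
  exact hz

theorem appr_mul {w : Valuation L Γ} {z₁ z₁' z₂ z₂' : L} (h1 : Appr w z₁ z₁')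
    (h2 : Appr w z₂ z₂') : Appr w (z₁ * z₂) (z₁' * z₂') := by
  have h3 : z₁ * z₂ - z₁' * z₂' = z₁ * (z₂ - z₂') + (z₁ - z₁') * z₂' := by ring
  unfold Appr
  rw [h3, map_mul]
  refine (Valuation.map_add _ _ _).trans_lt (max_lt ?_ ?_)
  · rw [map_mul, h1.val_eq]
    exact (mul_lt_mul_iff_right₀ h1.pos).2 h2
  · rw [map_mul]
    exact (mul_lt_mul_iff_left₀ h2.pos).2 h1

theorem appr_inv {w : Valuation L Γ} {z z' : L} (h : Appr w z z') : Appr w z⁻¹ z'⁻¹ := by
  have hz := h.ne_zero
  have hz' := h.ne_zero'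
  have h3 : z⁻¹ - z'⁻¹ = - ((z - z') * (z⁻¹ * z'⁻¹)) := by
    field_simp; ring
  unfold Appr
  rw [h3, Valuation.map_neg, map_mul, map_mul, map_inv₀, h.val_eq]
  have hp := h.pos
  have hi : 0 < w z'⁻¹ := by
    rw [map_inv₀]
    exact inv_pos.2 hp
  calc w (z - z') * ((w z')⁻¹ * w z'⁻¹) < w z' * ((w z')⁻¹ * w z'⁻¹) := by
        refine (mul_lt_mul_iff_left₀ ?_).2 h
        exact mul_pos (inv_pos.2 hp) hi
    _ = w z'⁻¹ := by
        rw [← mul_assoc, mul_inv_cancel₀ hp.ne', one_mul]

variable (K) in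
/-- Elements approximated by `β g^j`. -/
def GG (w : Valuation L Γ) (g : L) : Set L :=
  {z | ∃ β : K, β ≠ 0 ∧ ∃ j : ℤ, Appr w z (algebraMap K L β * g ^ j)}

theorem GG_mul {w : Valuation L Γ} {g : L} (hg : g ≠ 0) {z₁ z₂ : L} (h1 : z₁ ∈ GG K w g)
    (h2 : z₂ ∈ GG K w g) : z₁ * z₂ ∈ GG K w g := by
  obtain ⟨β₁, hβ₁, j₁, h1⟩ := h1
  obtain ⟨β₂, hβ₂, j₂, h2⟩ := h2
  refine ⟨β₁ * β₂, mul_ne_zero hβ₁ hβ₂, j₁ + j₂, ?_⟩
  have h3 : algebraMap K L (β₁ * β₂) * g ^ (j₁ + j₂) =
      (algebraMap K L β₁ * g ^ j₁) * (algebraMap K L β₂ * g ^ j₂) := by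
    rw [map_mul, zpow_add₀ hg]; ring
  rw [h3]
  exact appr_mul h1 h2

theorem GG_inv {w : Valuation L Γ} {g : L} {z : L} (h1 : z ∈ GG K w g) : z⁻¹ ∈ GG K w g := by
  obtain ⟨β, hβ, j, h⟩ := h1
  refine ⟨β⁻¹, inv_ne_zero hβ, -j, ?_⟩
  have h3 : algebraMap K L β⁻¹ * g ^ (-j) = (algebraMap K L β * g ^ j)⁻¹ := by
    rw [map_inv₀, zpow_neg, mul_inv]
  rw [h3]
  exact appr_inv h

theorem GG_const (w : Valuation L Γ) (g : L) (c : K) (hc : c ≠ 0) :
    algebraMap K L c ∈ GG K w g := by
  refine ⟨c, hc, 0, ?_⟩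
  rw [zpow_zero, mul_one]
  exact appr_refl w ((_root_.map_ne_zero _).2 hc)

theorem GG_poly [IsAlgClosed K] {w : Valuation L Γ} {g : L} (hg : g ≠ 0) (h : L)
    (hh : ∀ c : K, h - algebraMap K L c ∈ GG K w g) (P : K[X]) (hP : P ≠ 0) :
    aeval h P ∈ GG K w g := by
  have h1 : ∀ s : Multiset K, (s.map fun c => h - algebraMap K L c).prod ∈ GG K w g := by
    intro s
    induction s using Multiset.induction_on with
    | empty =>
      rw [Multiset.map_zero, Multiset.prod_zero, ← map_one (algebraMap K L)]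
      exact GG_const w g 1 one_ne_zero
    | cons c s ih =>
      rw [Multiset.map_cons, Multiset.prod_cons]
      exact GG_mul hg (hh c) ih
  have h2 : aeval h P = algebraMap K L P.leadingCoeff *
      (P.roots.map fun c => h - algebraMap K L c).prod := by
    conv_lhs => rw [(IsAlgClosed.splits P).eq_prod_roots]
    rw [map_mul, aeval_C, map_multiset_prod, Multiset.map_map]
    congr 2
    apply Multiset.map_congr rfl
    intro c _
    simp
  rw [h2]
  exact GG_mul hg (GG_const w g _ (leadingCoeff_ne_zero.2 hP)) (h1 _)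

theorem GG_field [IsAlgClosed K] {w : Valuation L Γ} {g : L} (hg : g ≠ 0) (h : L)
    (hh : ∀ c : K, h - algebraMap K L c ∈ GG K w g) (z : L)
    (hz : z ∈ IntermediateField.adjoin K {h}) (hz0 : z ≠ 0) : z ∈ GG K w g := by
  obtain ⟨r, s, hrs⟩ := (IntermediateField.mem_adjoin_simple_iff K z).1 hz
  have hr : r ≠ 0 := by
    rintro rfl
    apply hz0
    rw [hrs, map_zero, zero_div]
  have hs : s ≠ 0 := by
    rintro rfl
    apply hz0
    rw [hrs, map_zero, div_zero]
  rw [hrs, div_eq_mul_inv]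
  exact GG_mul hg (GG_poly hg h hh r hr) (GG_inv (GG_poly hg h hh s hs))

/-- If the residue field of `K(h)` is larger than that of `K`, some `(h - c) / b` is a unit
with residue outside that of `K`. -/
theorem exists_param [IsAlgClosed K] (w : Valuation L Γ) (h : L)
    (hh : ∀ c : K, h ≠ algebraMap K L c) (z : L) (hz : z ∈ IntermediateField.adjoin K {h})
    (hz1 : w z ≤ 1) (hzk : ∀ c : K, ¬ w (z - algebraMap K L c) < 1) :
    ∃ c b : K, b ≠ 0 ∧ w ((h - algebraMap K L c) / algebraMap K L b) ≤ 1 ∧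
      ∀ c' : K, ¬ w ((h - algebraMap K L c) / algebraMap K L b - algebraMap K L c') < 1 := by
  by_contra hcon
  push Not at hcon
  have hz0 : z ≠ 0 := by
    rintro rfl
    apply hzk 0
    simp
  have hz2 : w z = 1 := by
    refine le_antisymm hz1 ?_
    have := hzk 0
    rw [map_zero, sub_zero] at this
    exact not_lt.1 this
  by_cases hA : ∃ c₀ : K, ∀ b : K, b ≠ 0 → w (h - algebraMap K L c₀) ≠ w (algebraMap K L b)
  · obtain ⟨c₀, hc₀⟩ := hA
    have hg : h - algebraMap K L c₀ ≠ 0 := sub_ne_zero.2 (hh c₀)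
    have hall : ∀ c : K, h - algebraMap K L c ∈ GG K w (h - algebraMap K L c₀) := by
      intro c
      by_cases hcc : c = c₀
      · subst hcc
        refine ⟨1, one_ne_zero, 1, ?_⟩
        rw [map_one, one_mul, zpow_one]
        exact appr_refl w hg
      have hne : c₀ - c ≠ 0 := sub_ne_zero.2 (Ne.symm hcc)
      rcases lt_or_gt_of_ne (hc₀ (c₀ - c) hne) with h1 | h1
      · refine ⟨c₀ - c, hne, 0, ?_⟩
        rw [zpow_zero, mul_one]
        have h2 : h - algebraMap K L c - algebraMap K L (c₀ - c) = h - algebraMap K L c₀ := by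
          rw [map_sub]; ring
        unfold Appr
        rwa [h2]
      · refine ⟨1, one_ne_zero, 1, ?_⟩
        rw [map_one, one_mul, zpow_one]
        have h2 : h - algebraMap K L c - (h - algebraMap K L c₀) = algebraMap K L (c₀ - c) := by
          rw [map_sub]; ring
        unfold Appr
        rwa [h2]
    obtain ⟨β, hβ, j, hj⟩ := GG_field hg h hall z hz hz0
    have hval := hj.val_eq
    rw [hz2] at hval
    by_cases hj0 : j = 0
    · apply hzk β
      rw [hj0, zpow_zero, mul_one] at hj hval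
      have := hj
      unfold Appr at this
      rwa [← hval] at this
    · -- contradiction with `hc₀`
      have hjn : j.natAbs ≠ 0 := Int.natAbs_ne_zero.2 hj0
      have hkey : ∃ δ : K, δ ≠ 0 ∧ w (algebraMap K L δ) * w (h - algebraMap K L c₀) ^ j.natAbs = 1 := by
        rcases Int.natAbs_eq j with h1 | h1
        · refine ⟨β, hβ, ?_⟩
          rw [h1, zpow_natCast, map_mul, map_pow] at hval
          exact hval.symm
        · refine ⟨β⁻¹, inv_ne_zero hβ, ?_⟩
          rw [h1, zpow_neg, zpow_natCast, map_mul, map_inv₀, map_pow] at hval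
          rw [map_inv₀, map_inv₀]
          have h2 := congrArg (fun q => q⁻¹) hval
          simp only [inv_one, mul_inv, inv_inv] at h2
          exact h2.symm
      obtain ⟨δ, hδ, hδ1⟩ := hkey
      obtain ⟨γ, hγ⟩ := IsAlgClosed.exists_pow_nat_eq δ (Nat.pos_of_ne_zero hjn)
      have hγ0 : γ ≠ 0 := by
        rintro rfl
        rw [zero_pow hjn] at hγ
        exact hδ hγ.symm
      rw [← hγ, map_pow, map_pow, ← mul_pow] at hδ1
      have h3 : w (algebraMap K L γ) * w (h - algebraMap K L c₀) = 1 := by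
        rcases lt_trichotomy (w (algebraMap K L γ) * w (h - algebraMap K L c₀)) 1 with h4 | h4 | h4
        · exact absurd hδ1 (pow_lt_one' h4 hjn).ne
        · exact h4
        · exact absurd hδ1 (one_lt_pow' h4 hjn).ne'
      apply hc₀ γ⁻¹ (inv_ne_zero hγ0)
      rw [map_inv₀, map_inv₀]
      exact eq_inv_of_mul_eq_one_right h3
  · push Not at hA
    have hstep : ∀ c : K, ∃ c₁ : K, w (h - algebraMap K L c₁) < w (h - algebraMap K L c) := by
      intro c
      obtain ⟨b, hb, hwb⟩ := hA c
      have hbL : algebraMap K L b ≠ 0 := (_root_.map_ne_zero _).2 hb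
      have hwb0 : 0 < w (algebraMap K L b) := by
        rw [zero_lt_iff, Ne, Valuation.zero_iff]; exact hbL
      obtain ⟨c', hc'⟩ := hcon c b hb (by rw [map_div₀, hwb, div_self hwb0.ne'])
      refine ⟨c + b * c', ?_⟩
      have h1 : h - algebraMap K L (c + b * c') = algebraMap K L b *
          ((h - algebraMap K L c) / algebraMap K L b - algebraMap K L c') := by
        rw [map_add, map_mul]; field_simp; ring
      rw [h1, map_mul, hwb]
      exact mul_lt_of_lt_one_right hwb0 hc'
    have hall : ∀ c : K, h - algebraMap K L c ∈ GG K w (1 : L) := by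
      intro c
      obtain ⟨c₁, hc₁⟩ := hstep c
      have hne : c₁ - c ≠ 0 := by
        intro h0
        rw [sub_eq_zero.1 h0] at hc₁
        exact lt_irrefl _ hc₁
      refine ⟨c₁ - c, hne, 0, ?_⟩
      rw [zpow_zero, mul_one]
      have h2 : h - algebraMap K L c - algebraMap K L (c₁ - c) = h - algebraMap K L c₁ := by
        rw [map_sub]; ring
      have h3 : w (algebraMap K L (c₁ - c)) = w (h - algebraMap K L c) := by
        have h4 : algebraMap K L (c₁ - c) = (h - algebraMap K L c) - (h - algebraMap K L c₁) := by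
          rw [map_sub]; ring
        rw [h4]
        exact Valuation.map_sub_eq_of_lt_left _ hc₁
      unfold Appr
      rw [h2, h3]
      exact hc₁
    obtain ⟨β, hβ, j, hj⟩ := GG_field one_ne_zero h hall z hz hz0
    rw [one_zpow, mul_one] at hj
    have hval := hj.val_eq
    rw [hz2] at hval
    apply hzk β
    have := hj
    unfold Appr at this
    rwa [← hval] at this

end

end Pool.Agent.NagGon
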