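import Mathlib
import Pool.Agent.NagGon.Mobius
import Pool.Agent.NagGon.Gonality

namespace Pool.Agent.NagGon

open Polynomial IsLocalRing
open scoped IntermediateField.algebraAdjoinAdjoin

theorem residue_algClosed {K : Type*} [Field K] [IsAlgClosed K] (V : ValuationSubring K) :
    IsAlgClosed (ResidueField V) := by
  apply IsAlgClosed.of_exists_root
  intro p hp hirr
  obtain ⟨q, hq, hqd, hqm⟩ := Polynomial.lifts_and_natDegree_eq_and_monic
    (f := residue V) (p := p) (by
      rw [Polynomial.lifts_iff_coeff_lifts]
      intro n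
      exact residue_surjective _) hp
  have hdeg : (q.map (algebraMap V K)).degree ≠ 0 := by
    rw [degree_map_eq_of_injective (IsFractionRing.injective V K)]
    intro h0
    have h1 : q.natDegree = 0 := natDegree_eq_of_degree_eq_some h0
    rw [hqd] at h1
    exact hirr.natDegree_pos.ne' h1
  obtain ⟨α, hα⟩ := IsAlgClosed.exists_root _ hdeg
  have hint : IsIntegral V α := ⟨q, hqm, by rwa [IsRoot.def, eval_map] at hα⟩
  obtain ⟨a, ha⟩ := IsIntegrallyClosed.algebraMap_eq_of_integral hint
  refine ⟨residue V a, ?_⟩
  have h1 : q.eval a = 0 := by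
    apply IsFractionRing.injective V K
    rw [map_zero, ← eval₂_at_apply, ha, ← eval_map]
    exact hα
  rw [← hq, eval_map, eval₂_at_apply, h1, map_zero]

section
variable {K L : Type*} [Field K] [Field L] [Algebra K L]

/-- The inclusion of valuation rings. -/
noncomputable def inclVW (W : ValuationSubring L) :
    (W.comap (algebraMap K L)) →+* W :=
  ((algebraMap K L).comp (W.comap (algebraMap K L)).subtype).codRestrict W (fun c => c.2)

theorem inclVW_coe (W : ValuationSubring L) (c : W.comap (algebraMap K L)) :
    ((inclVW W c : W) : L) = algebraMap K L c := rfl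

instance (W : ValuationSubring L) : IsLocalHom (inclVW (K := K) W) := by
  constructor
  intro c hc
  obtain ⟨u, hu⟩ := hc.exists_right_inv
  have h1 : algebraMap K L c * (u : L) = 1 := congrArg Subtype.val hu
  have hc0 : (c : K) ≠ 0 := by
    intro h0
    rw [h0, map_zero, zero_mul] at h1
    exact zero_ne_one h1
  have h2 : (c : K)⁻¹ ∈ W.comap (algebraMap K L) := by
    rw [ValuationSubring.mem_comap, map_inv₀]
    rw [← eq_inv_of_mul_eq_one_right h1]
    exact u.2
  exact IsUnit.of_mul_eq_one ⟨_, h2⟩ (Subtype.ext (mul_inv_cancel₀ hc0))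

/-- The residue field of `W` as an algebra over the residue field of `W ∩ K`. -/
noncomputable abbrev algRes (W : ValuationSubring L) :
    Algebra (ResidueField (W.comap (algebraMap K L))) (ResidueField W) :=
  (ResidueField.map (inclVW (K := K) W)).toAlgebra

attribute [local instance] algRes

theorem algRes_residue (W : ValuationSubring L) (c : W.comap (algebraMap K L)) :
    algebraMap (ResidueField (W.comap (algebraMap K L))) (ResidueField W) (residue _ c) =
      residue W (inclVW W c) := rfl

theorem residue_eq_zero_iff' (W : ValuationSubring L) (z : W) :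
    residue W z = 0 ↔ W.valuation (z : L) < 1 := by
  rw [residue_eq_zero_iff, ValuationSubring.valuation_lt_one_iff]

/-- Scaling a polynomial so that its coefficients are integral and one of them is `1`. -/
theorem exists_max_coeff {Γ : Type*} [LinearOrderedCommGroupWithZero Γ]
    {ι : Type*} (w : Valuation L Γ) (s : Finset ι) (c : ι → L) (h : ∃ i ∈ s, c i ≠ 0) :
    ∃ i₀ ∈ s, c i₀ ≠ 0 ∧ ∀ i ∈ s, w (c i) ≤ w (c i₀) := by
  obtain ⟨i, hi, hne⟩ := h
  obtain ⟨i₀, hi₀, hmax⟩ := s.exists_max_image (fun i => w (c i)) ⟨i, hi⟩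
  refine ⟨i₀, hi₀, ?_, hmax⟩
  intro h0
  have h1 := hmax i hi
  rw [h0, map_zero] at h1
  exact hne ((Valuation.zero_iff w).1 (le_antisymm h1 (zero_le)))

theorem residue_rank (W : ValuationSubring L) (h : L) (hW : h ∈ W)
    (ht : Transcendental (ResidueField (W.comap (algebraMap K L))) (residue W ⟨h, hW⟩))
    (hfin : FiniteDimensional (IntermediateField.adjoin K {h}) L) :
    Module.rank (IntermediateField.adjoin (ResidueField (W.comap (algebraMap K L)))
      {residue W ⟨h, hW⟩}) (ResidueField W) ≤
      Module.finrank (IntermediateField.adjoin K {h}) L := by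
  classical
  apply rank_le
  intro s hs
  by_contra hcard
  rw [not_le] at hcard
  have hsurj : ∀ m : ResidueField W, ∃ u : W, residue W u = m := residue_surjective
  choose U hU using hsurj
  have hnot : ¬ LinearIndependent (IntermediateField.adjoin K {h})
      (fun i : s => ((U i : W) : L)) := by
    intro hli
    have := hli.fintype_card_le_finrank
    rw [Fintype.card_coe] at this
    omega
  have hnot2 : ¬ LinearIndependent (Algebra.adjoin K {h}) (fun i : s => ((U i : W) : L)) := by
    intro hli
    exact hnot ((LinearIndependent.iff_fractionRing (Algebra.adjoin K {h})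
      (IntermediateField.adjoin K {h})).1 hli)
  rw [Fintype.not_linearIndependent_iff] at hnot2
  obtain ⟨g, hg, i₁, hi₁⟩ := hnot2
  have hP : ∀ i : s, ∃ P : K[X], aeval h P = (g i : L) := fun i =>
    (mem_adjoin_iff h (g i : L)).1 (g i).2
  choose P hP using hP
  have hP1 : P i₁ ≠ 0 := by
    intro h0
    apply hi₁
    apply Subtype.ext
    rw [← hP, h0, map_zero]; rfl
  obtain ⟨n₁, hn₁⟩ : ∃ n, (P i₁).coeff n ≠ 0 := by
    by_contra hcon
    push Not at hcon
    exact hP1 (Polynomial.ext (by simpa using hcon))
  let T : Finset (s × ℕ) := Finset.univ.biUnion fun i : s => (P i).support.image fun n => (i, n)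
  have hTmem : ∀ i : s, ∀ n, (P i).coeff n ≠ 0 → (i, n) ∈ T := by
    intro i n hn
    simp only [T, Finset.mem_biUnion, Finset.mem_univ, true_and, Finset.mem_image]
    exact ⟨i, n, mem_support_iff.2 hn, rfl⟩
  obtain ⟨⟨i₀, n₀⟩, _, h0ne, hmax⟩ := exists_max_coeff W.valuation T
    (fun p => algebraMap K L ((P p.1).coeff p.2))
    ⟨(i₁, n₁), hTmem _ _ hn₁, by simpa using hn₁⟩
  set a₀ : K := (P i₀).coeff n₀ with ha₀
  have ha₀ne : a₀ ≠ 0 := by
    intro h0
    apply h0ne
    rw [h0, map_zero]
  have hint : ∀ i : s, ∀ n, a₀⁻¹ * (P i).coeff n ∈ W.comap (algebraMap K L) := by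
    intro i n
    by_cases hn : (P i).coeff n = 0
    · rw [hn, mul_zero]; exact zero_mem _
    · rw [ValuationSubring.mem_comap, ← ValuationSubring.valuation_le_one_iff, map_mul, map_inv₀,
        map_mul, map_inv₀]
      have h1 := hmax _ (hTmem i n hn)
      have h2 : 0 < W.valuation (algebraMap K L a₀) := by
        rw [zero_lt_iff, Ne, Valuation.zero_iff]; exact h0ne
      rw [inv_mul_le_iff₀ h2, mul_one]
      exact h1
  have hR : ∀ i : s, ∃ R : (W.comap (algebraMap K L))[X],
      R.map (algebraMap (W.comap (algebraMap K L)) K) = C a₀⁻¹ * P i := by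
    intro i
    have h1 : C a₀⁻¹ * P i ∈ Polynomial.lifts (algebraMap (W.comap (algebraMap K L)) K) := by
      rw [Polynomial.lifts_iff_coeff_lifts]
      intro n
      rw [coeff_C_mul]
      exact ⟨⟨_, hint i n⟩, rfl⟩
    exact (Polynomial.mem_lifts _).1 h1
  choose R hR using hR
  let t := residue W ⟨h, hW⟩
  have hsum : ∑ i : s, eval₂ (inclVW (K := K) W) ⟨h, hW⟩ (R i) * U i = 0 := by
    apply Subtype.ext
    have h1 : ∀ i : s, ((eval₂ (inclVW (K := K) W) ⟨h, hW⟩ (R i) : W) : L) =
        algebraMap K L a₀⁻¹ * (g i : L) := by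
      intro i
      rw [← hP i]
      have h2 : ((eval₂ (inclVW (K := K) W) ⟨h, hW⟩ (R i) : W) : L) =
          eval₂ ((algebraMap K L).comp (algebraMap (W.comap (algebraMap K L)) K)) h (R i) := by
        have h3 := hom_eval₂ (R i) (inclVW (K := K) W) W.subtype ⟨h, hW⟩
        exact h3
      rw [h2, ← eval₂_map, hR i, ← aeval_def, map_mul, aeval_C]
    push_cast
    simp only [h1]
    have h4 : ∑ i : s, algebraMap K L a₀⁻¹ * (g i : L) * (U i : L) =
        algebraMap K L a₀⁻¹ * ∑ i : s, g i • ((U i : W) : L) := by
      rw [Finset.mul_sum]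
      refine Finset.sum_congr rfl fun i _ => ?_
      rw [mul_assoc]; rfl
    rw [h4, hg, mul_zero]
  have hsum2 := congrArg (residue W) hsum
  rw [map_sum, map_zero] at hsum2
  have hterm : ∀ i : s, residue W (eval₂ (inclVW (K := K) W) ⟨h, hW⟩ (R i) * U i) =
      aeval t ((R i).map (residue (W.comap (algebraMap K L)))) * (i : ResidueField W) := by
    intro i
    rw [map_mul, hU, hom_eval₂, aeval_def, eval₂_map]
    rfl
  simp only [hterm] at hsum2
  rw [Fintype.linearIndependent_iff] at hs
  have h5 := hs (fun i => aeval (IntermediateField.AdjoinSimple.gen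
    (ResidueField (W.comap (algebraMap K L))) t) ((R i).map (residue _))) (by
      rw [← hsum2]
      refine Finset.sum_congr rfl fun i _ => ?_
      rw [Algebra.smul_def]
      congr 1
      have h6 := Polynomial.aeval_algebraMap_apply (ResidueField W)
        (IntermediateField.AdjoinSimple.gen (ResidueField (W.comap (algebraMap K L))) t)
        ((R i).map (residue _))
      exact h6.symm) i₀
  have h6 : aeval t ((R i₀).map (residue (W.comap (algebraMap K L)))) = 0 := by
    have h7 := congrArg (algebraMap _ (ResidueField W)) h5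
    rw [map_zero, ← Polynomial.aeval_algebraMap_apply] at h7
    exact h7
  have h8 : (R i₀).map (residue (W.comap (algebraMap K L))) ≠ 0 := by
    intro h0
    have h9 : (R i₀).coeff n₀ = 1 := by
      apply Subtype.ext
      have h10 := congrArg (fun q => coeff q n₀) (hR i₀)
      simp only [coeff_map, coeff_C_mul] at h10
      rw [← ha₀, inv_mul_cancel₀ ha₀ne] at h10
      exact h10
    have h11 := congrArg (fun q => coeff q n₀) h0
    simp only [coeff_map, h9, map_one, coeff_zero] at h11
    exact one_ne_zero h11
  exact ht ⟨_, h8, h6⟩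

end

end Pool.Agent.NagGon
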