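import Mathlib
import Pool.Agent.NagGon.Residue

namespace Pool.Agent.NagGon

open Polynomial IsLocalRing

section
variable {K L : Type*} [Field K] [Field L] [Algebra K L]

attribute [local instance] algRes

theorem val_residue_lt (W : ValuationSubring L) (z : L) (hz : z ∈ W) (h0 : residue W ⟨z, hz⟩ = 0) :
    W.valuation z < 1 := (residue_eq_zero_iff' W ⟨z, hz⟩).1 h0

theorem transc_of_not [IsAlgClosed K] (W : ValuationSubring L) (z : L) (hz : z ∈ W)
    (hzk : ∀ c : K, ¬ W.valuation (z - algebraMap K L c) < 1) :
    Transcendental (ResidueField (W.comap (algebraMap K L))) (residue W ⟨z, hz⟩) := by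
  have := residue_algClosed (W.comap (algebraMap K L))
  intro halg
  have hint := halg.isIntegral
  have hdeg := IsAlgClosed.degree_eq_one_of_irreducible _ (minpoly.irreducible hint)
  obtain ⟨c, hc⟩ := minpoly.mem_range_of_degree_eq_one _ _ hdeg
  obtain ⟨c', rfl⟩ := residue_surjective c
  rw [algRes_residue] at hc
  apply hzk c'
  have h1 : residue W (⟨z, hz⟩ - inclVW W c') = 0 := by
    rw [map_sub, hc, sub_self]
  have h2 := (residue_eq_zero_iff' W _).1 h1
  exact h2

/-- If the residue of `x` is transcendental, then the residue field of `K(h)` is larger than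
that of `K`. -/
theorem exists_residue [IsAlgClosed K] (W : ValuationSubring L) (h : L)
    (hfin : FiniteDimensional (IntermediateField.adjoin K {h}) L)
    (x : L) (hx : x ∈ W) (hxk : ∀ c : K, ¬ W.valuation (x - algebraMap K L c) < 1) :
    ∃ z ∈ IntermediateField.adjoin K {h}, W.valuation z ≤ 1 ∧
      ∀ c : K, ¬ W.valuation (z - algebraMap K L c) < 1 := by
  by_contra hcon
  push Not at hcon
  have hxalg : IsAlgebraic (IntermediateField.adjoin K {h}) x := Algebra.IsAlgebraic.isAlgebraic x
  obtain ⟨p, hp0, hp⟩ := hxalg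
  obtain ⟨i₁, hi₁⟩ : ∃ n, p.coeff n ≠ 0 := by
    by_contra hcon
    push Not at hcon
    exact hp0 (Polynomial.ext (by simpa using hcon))
  obtain ⟨i₀, hi₀, hne, hmax⟩ := exists_max_coeff W.valuation p.support
    (fun i => ((p.coeff i : IntermediateField.adjoin K {h}) : L))
    ⟨i₁, mem_support_iff.2 hi₁, by simpa using hi₁⟩
  let q : ℕ → L := fun i => (p.coeff i : L) / (p.coeff i₀ : L)
  have hpos : 0 < W.valuation ((p.coeff i₀ : IntermediateField.adjoin K {h}) : L) := by
    rw [zero_lt_iff, Ne, Valuation.zero_iff]; exact hne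
  have hq1 : ∀ i, W.valuation (q i) ≤ 1 := by
    intro i
    simp only [q, map_div₀]
    rw [div_le_one₀ hpos]
    by_cases hi : i ∈ p.support
    · exact hmax i hi
    · rw [notMem_support_iff.1 hi]
      simp
  have hq2 : ∀ i, q i ∈ IntermediateField.adjoin K {h} := fun i =>
    div_mem (p.coeff i).2 (p.coeff i₀).2
  have hq3 : ∀ i, ∃ c : K, W.valuation (q i - algebraMap K L c) < 1 := fun i =>
    hcon (q i) (hq2 i) (hq1 i)
  choose γ hγ using hq3
  have hγV : ∀ i, γ i ∈ W.comap (algebraMap K L) := by
    intro i
    rw [ValuationSubring.mem_comap, ← ValuationSubring.valuation_le_one_iff]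
    have h1 : algebraMap K L (γ i) = q i - (q i - algebraMap K L (γ i)) := by ring
    rw [h1]
    exact (Valuation.map_sub _ _ _).trans (max_le (hq1 i) (hγ i).le)
  have hsumq : ∑ i ∈ Finset.range (p.natDegree + 1), q i * x ^ i = 0 := by
    have h1 : aeval x p = ∑ i ∈ Finset.range (p.natDegree + 1),
        ((p.coeff i : IntermediateField.adjoin K {h}) : L) * x ^ i := by
      rw [aeval_eq_sum_range]
      refine Finset.sum_congr rfl fun i _ => ?_
      rw [Algebra.smul_def]; rfl
    rw [hp] at h1
    have h2 : ∑ i ∈ Finset.range (p.natDegree + 1), q i * x ^ i =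
        (∑ i ∈ Finset.range (p.natDegree + 1),
        ((p.coeff i : IntermediateField.adjoin K {h}) : L) * x ^ i) / (p.coeff i₀ : L) := by
      rw [Finset.sum_div]
      refine Finset.sum_congr rfl fun i _ => ?_
      simp only [q]
      ring
    rw [h2, ← h1, zero_div]
  let Q : (ResidueField (W.comap (algebraMap K L)))[X] :=
    ∑ i ∈ Finset.range (p.natDegree + 1), C (residue _ ⟨γ i, hγV i⟩) * X ^ i
  have hQ0 : Q ≠ 0 := by
    intro h0
    have h1 := congrArg (fun r => coeff r i₀) h0
    simp only [Q, finsetSum_coeff, coeff_C_mul, coeff_X_pow, coeff_zero] at h1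
    rw [Finset.sum_eq_single i₀] at h1
    · simp only [if_true, mul_one] at h1
      have h2 : residue W (inclVW W ⟨γ i₀, hγV i₀⟩) = 0 := by
        rw [← algRes_residue, h1, map_zero]
      have h3 := (residue_eq_zero_iff' W _).1 h2
      have h4 : W.valuation (algebraMap K L (γ i₀)) < 1 := h3
      have h5 := hγ i₀
      have h6 : q i₀ = 1 := div_self hne
      have h7 : W.valuation (1 : L) < 1 := by
        have h8 : (1 : L) = (q i₀ - algebraMap K L (γ i₀)) + algebraMap K L (γ i₀) := by
          rw [h6]; ring
        rw [h8]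
        exact (Valuation.map_add _ _ _).trans_lt (max_lt h5 h4)
      rw [map_one] at h7
      exact lt_irrefl _ h7
    · intro j _ hj
      rw [if_neg (fun h => hj h.symm), mul_zero]
    · intro h8
      exact absurd (Finset.mem_range.2 (Nat.lt_succ_of_le (le_natDegree_of_mem_supp _ hi₀))) h8
  apply transc_of_not W x hx hxk
  refine ⟨Q, hQ0, ?_⟩
  have h1 : aeval (residue W ⟨x, hx⟩) Q = residue W (∑ i ∈ Finset.range (p.natDegree + 1),
      inclVW (K := K) W ⟨γ i, hγV i⟩ * (⟨x, hx⟩ : W) ^ i) := by
    simp only [Q, map_sum, map_mul, aeval_C, map_pow, aeval_X]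
    refine Finset.sum_congr rfl fun i _ => ?_
    rw [algRes_residue]
  rw [h1, residue_eq_zero_iff']
  have h2 : ((∑ i ∈ Finset.range (p.natDegree + 1),
      inclVW (K := K) W ⟨γ i, hγV i⟩ * (⟨x, hx⟩ : W) ^ i : W) : L) =
      - ∑ i ∈ Finset.range (p.natDegree + 1), (q i - algebraMap K L (γ i)) * x ^ i := by
    push_cast
    simp only [sub_mul, Finset.sum_sub_distrib, hsumq, zero_sub, neg_neg]
    rfl
  rw [h2, Valuation.map_neg]
  refine Valuation.map_sum_lt _ one_ne_zero fun i _ => ?_
  rw [map_mul, map_pow]
  exact (mul_le_of_le_one_right' (pow_le_one'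
    ((ValuationSubring.valuation_le_one_iff W x).2 hx) _)).trans_lt (hγ i)

theorem res_main [IsAlgClosed K] (W : ValuationSubring L)
    (hQ : ∀ n : ℕ, n ≠ 0 → ¬ W.valuation (n : L) < 1)
    (h : L) (hh : ∀ c : K, h ≠ algebraMap K L c)
    (hfin : FiniteDimensional (IntermediateField.adjoin K {h}) L)
    (e : ℕ) (he : Module.finrank (IntermediateField.adjoin K {h}) L + 2 ≤ e)
    (x y : L) (hx : x ∈ W) (hy : y ∈ W) (hxy : W.valuation (x ^ e + y ^ e - 1) < 1)
    (hxt : ∀ c : K, ¬ W.valuation (x - algebraMap K L c) < 1) : False := by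
  have hAC := residue_algClosed (W.comap (algebraMap K L))
  have hch : CharZero (ResidueField (W.comap (algebraMap K L))) := by
    apply charZero_of_inj_zero
    intro n hn
    by_contra hne
    apply hQ n hne
    have h1 : residue W ((n : ℕ) : W) = 0 := by
      rw [map_natCast]
      have h2 := congrArg (algebraMap (ResidueField (W.comap (algebraMap K L)))
        (ResidueField W)) hn
      rw [map_natCast, map_zero] at h2
      exact h2
    have h3 := (residue_eq_zero_iff' W _).1 h1
    simpa using h3
  obtain ⟨z, hz, hz1, hzk⟩ := exists_residue W h hfin x hx hxt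
  obtain ⟨c, b, hb, hp1, hp2⟩ := exists_param W.valuation h hh z hz hz1 hzk
  set h' : L := (h - algebraMap K L c) / algebraMap K L b with hh'
  have hbL : algebraMap K L b ≠ 0 := (_root_.map_ne_zero _).2 hb
  have hEq : IntermediateField.adjoin K {h'} = IntermediateField.adjoin K {h} := by
    apply le_antisymm
    · rw [IntermediateField.adjoin_simple_le_iff]
      exact div_mem (sub_mem (IntermediateField.mem_adjoin_simple_self K h)
        (IntermediateField.algebraMap_mem _ c)) (IntermediateField.algebraMap_mem _ b)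
    · rw [IntermediateField.adjoin_simple_le_iff]
      have h1 : h = h' * algebraMap K L b + algebraMap K L c := by
        rw [hh']; field_simp; ring
      rw [h1]
      exact add_mem (mul_mem (IntermediateField.mem_adjoin_simple_self K h')
        (IntermediateField.algebraMap_mem _ b)) (IntermediateField.algebraMap_mem _ c)
  have hW : h' ∈ W := (ValuationSubring.valuation_le_one_iff W h').1 hp1
  have ht := transc_of_not W h' hW hp2
  rw [← hEq] at hfin he
  have hrank := residue_rank W h' hW ht hfin
  have hfinM : FiniteDimensional (IntermediateField.adjoin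
      (ResidueField (W.comap (algebraMap K L))) {residue W ⟨h', hW⟩}) (ResidueField W) := by
    apply Module.rank_lt_aleph0_iff.1
    exact lt_of_le_of_lt hrank (Cardinal.natCast_lt_aleph0)
  have hfr : Module.finrank (IntermediateField.adjoin
      (ResidueField (W.comap (algebraMap K L))) {residue W ⟨h', hW⟩}) (ResidueField W) ≤
      Module.finrank (IntermediateField.adjoin K {h'}) L :=
    Module.finrank_le_of_rank_le hrank
  refine fermat_gonality (residue W ⟨h', hW⟩) ht e hfinM (by omega) (residue W ⟨x, hx⟩)
    (residue W ⟨y, hy⟩) ?_ (transc_of_not W x hx hxt)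
  have h1 : residue W ((⟨x, hx⟩ : W) ^ e + (⟨y, hy⟩ : W) ^ e - 1) = 0 := by
    rw [residue_eq_zero_iff']
    exact hxy
  rw [map_sub, map_add, map_pow, map_pow, map_one] at h1
  exact sub_eq_zero.1 h1

end

end Pool.Agent.NagGon
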