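import Mathlib

namespace Pool.Agent.NagGon

open MvPolynomial IsLocalRing

/-- Places extending a prime ideal (Chevalley). -/
theorem chevalley {R K : Type*} [CommRing R] [Field K] (P : Ideal R) [hP : P.IsPrime]
    (ψ : R →+* K) (hker : RingHom.ker ψ ≤ P) :
    ∃ V : ValuationSubring K, (∀ r, ψ r ∈ V) ∧ (∀ r, V.valuation (ψ r) < 1 ↔ r ∈ P) := by
  have hunit : ∀ y : P.primeCompl, IsUnit (ψ y) := by
    intro y
    rw [isUnit_iff_ne_zero]
    intro h0
    exact y.2 (hker h0)
  let f : Localization.AtPrime P →+* K := IsLocalization.lift hunit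
  have hf : ∀ r, f (algebraMap R _ r) = ψ r := fun r => IsLocalization.lift_eq hunit r
  obtain ⟨V, hV, hloc⟩ := IsLocalRing.exists_factor_valuationRing f
  have hmem : ∀ r, ψ r ∈ V := fun r => by rw [← hf]; exact hV _
  refine ⟨V, hmem, fun r => ?_⟩
  have h1 : IsUnit (f.codRestrict V.toSubring hV (algebraMap R _ r)) ↔
      IsUnit (algebraMap R (Localization.AtPrime P) r) :=
    ⟨fun h => hloc.map_nonunit _ h, fun h => h.map _⟩
  have h2 : IsUnit (algebraMap R (Localization.AtPrime P) r) ↔ r ∉ P :=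
    IsLocalization.AtPrime.isUnit_to_map_iff _ P r
  have h3 : (IsUnit (f.codRestrict V.toSubring hV (algebraMap R _ r))) ↔
      ¬ V.valuation (ψ r) < 1 := by
    have h4 : (f.codRestrict V.toSubring hV (algebraMap R _ r) : V) = ⟨ψ r, hmem r⟩ :=
      Subtype.ext (hf r)
    have h5 := ValuationSubring.valuation_lt_one_iff V ⟨ψ r, hmem r⟩
    rw [IsLocalRing.mem_maximalIdeal, mem_nonunits_iff] at h5
    change IsUnit (f.codRestrict V.toSubring hV (algebraMap R _ r) : V) ↔ _
    rw [h4, ← h5, not_not]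
  rw [h1, h2] at h3
  tauto

section gauss
variable {K σ : Type*} [Field K] (V : ValuationSubring K)

/-- Every nonzero polynomial is a scalar multiple of one with integral coefficients, one of them
equal to `1`. -/
theorem exists_primitive (F : MvPolynomial σ K) (hF : F ≠ 0) :
    ∃ u : K, u ≠ 0 ∧ ∃ F₀ : MvPolynomial σ V, F = C u * map (algebraMap V K) F₀ ∧
      ∃ s, coeff s F₀ = 1 := by
  obtain ⟨s₁, hs₁⟩ := exists_coeff_ne_zero hF
  obtain ⟨s₀, hs₀, hmax⟩ := F.support.exists_max_image (fun s => V.valuation (coeff s F))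
    ⟨s₁, mem_support_iff.2 hs₁⟩
  have hne : coeff s₀ F ≠ 0 := mem_support_iff.1 hs₀
  have hpos : 0 < V.valuation (coeff s₀ F) := by
    rw [zero_lt_iff, Ne, Valuation.zero_iff]; exact hne
  have hint : ∀ s, (coeff s₀ F)⁻¹ * coeff s F ∈ V := by
    intro s
    by_cases hs : s ∈ F.support
    · rw [← ValuationSubring.valuation_le_one_iff, map_mul, map_inv₀, inv_mul_le_iff₀ hpos, mul_one]
      exact hmax s hs
    · rw [notMem_support_iff.1 hs, mul_zero]
      exact zero_mem V
  let F₀ : MvPolynomial σ V :=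
    ∑ s ∈ F.support, monomial s (⟨(coeff s₀ F)⁻¹ * coeff s F, hint s⟩ : V)
  have hF₀ : ∀ s, coeff s F₀ = (⟨(coeff s₀ F)⁻¹ * coeff s F, hint s⟩ : V) := by
    classical
    intro s
    simp only [F₀, coeff_sum, coeff_monomial]
    rw [Finset.sum_ite_eq' F.support s]
    split_ifs with hs
    · rfl
    · apply Subtype.ext
      change (0 : K) = (coeff s₀ F)⁻¹ * coeff s F
      rw [notMem_support_iff.1 hs, mul_zero]
  refine ⟨coeff s₀ F, hne, F₀, ?_, s₀, ?_⟩
  · ext s
    rw [coeff_C_mul, coeff_map, hF₀]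
    change coeff s F = coeff s₀ F * ((coeff s₀ F)⁻¹ * coeff s F)
    rw [mul_inv_cancel_left₀ hne]
  · rw [hF₀]
    apply Subtype.ext
    change (coeff s₀ F)⁻¹ * coeff s₀ F = 1
    exact inv_mul_cancel₀ hne

theorem map_residue_ne_zero (F₀ : MvPolynomial σ V) (h : ∃ s, coeff s F₀ = 1) :
    map (residue V) F₀ ≠ 0 := by
  obtain ⟨s, hs⟩ := h
  intro h0
  have h1 := congrArg (coeff s) h0
  rw [coeff_map, hs, map_one, coeff_zero] at h1
  exact one_ne_zero h1

/-- Gauss' lemma. -/
theorem gauss (F₀ G : MvPolynomial σ V) (hF₀ : map (residue V) F₀ ≠ 0) (H : MvPolynomial σ K)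
    (hG : map (algebraMap V K) G = map (algebraMap V K) F₀ * H) :
    ∃ H₁ : MvPolynomial σ V, G = F₀ * H₁ := by
  have hinj : Function.Injective (map (σ := σ) (algebraMap V K)) :=
    map_injective _ (IsFractionRing.injective V K)
  by_cases hH : H = 0
  · refine ⟨0, ?_⟩
    apply hinj
    rw [hG, hH, mul_zero, mul_zero, map_zero]
  obtain ⟨u, hu, H₀, hH₀, hs⟩ := exists_primitive V H hH
  have hprod : map (residue V) (F₀ * H₀) ≠ 0 := by
    rw [map_mul]
    exact mul_ne_zero hF₀ (map_residue_ne_zero V H₀ hs)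
  obtain ⟨s, hs'⟩ := exists_coeff_ne_zero hprod
  rw [coeff_map] at hs'
  have hunit : IsUnit (coeff s (F₀ * H₀)) := by
    by_contra hcon
    apply hs'
    rw [residue_eq_zero_iff]
    exact hcon
  have h1 : map (algebraMap V K) G = C u * map (algebraMap V K) (F₀ * H₀) := by
    rw [hG, hH₀, map_mul]; ring
  have h2 := congrArg (coeff s) h1
  rw [coeff_map, coeff_C_mul, coeff_map] at h2
  obtain ⟨r, hr⟩ := hunit.exists_right_inv
  have h3 : u = algebraMap V K (coeff s G * r) := by
    rw [map_mul, h2, mul_assoc, ← map_mul, hr, map_one, mul_one]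
  refine ⟨C (coeff s G * r) * H₀, ?_⟩
  apply hinj
  rw [h1, h3]
  simp only [map_mul, map_C]
  ring

end gauss

/-- Vanishing to order at least `m` at the point `(a, b)`: all coefficients of
`F (x + a, y + b)` in degrees less than `m` are zero. -/
def VanishOrder {R : Type*} [CommRing R] (F : MvPolynomial (Fin 2) R) (a b : R) (m : ℕ) : Prop :=
  ∀ s : Fin 2 →₀ ℕ, s 0 + s 1 < m →
    coeff s (aeval ![X 0 + C a, X 1 + C b] F : MvPolynomial (Fin 2) R) = 0

theorem shift_map {R S : Type*} [CommRing R] [CommRing S] (φ : R →+* S)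
    (F : MvPolynomial (Fin 2) R) (a b : R) :
    (aeval ![X 0 + C (φ a), X 1 + C (φ b)] (map φ F) : MvPolynomial (Fin 2) S) =
      map φ (aeval ![X 0 + C a, X 1 + C b] F) := by
  have h1 : ((aeval ![X 0 + C (φ a), X 1 + C (φ b)] :
      MvPolynomial (Fin 2) S →ₐ[S] MvPolynomial (Fin 2) S).toRingHom.comp (map φ)) =
      (map φ).comp (aeval ![X 0 + C a, X 1 + C b] :
      MvPolynomial (Fin 2) R →ₐ[R] MvPolynomial (Fin 2) R).toRingHom := by
    apply MvPolynomial.ringHom_ext
    · intro r
      simp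
    · intro i
      fin_cases i <;> simp
  exact RingHom.congr_fun h1 F

theorem VanishOrder.map {R S : Type*} [CommRing R] [CommRing S] (φ : R →+* S)
    {F : MvPolynomial (Fin 2) R} {a b : R} {m : ℕ} (h : VanishOrder F a b m) :
    VanishOrder (MvPolynomial.map φ F) (φ a) (φ b) m := by
  intro s hs
  rw [shift_map, coeff_map, h s hs, map_zero]

theorem VanishOrder.of_map {R S : Type*} [CommRing R] [CommRing S] (φ : R →+* S)
    (hφ : Function.Injective φ)
    {F : MvPolynomial (Fin 2) R} {a b : R} {m : ℕ}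
    (h : VanishOrder (MvPolynomial.map φ F) (φ a) (φ b) m) :
    VanishOrder F a b m := by
  intro s hs
  have h1 := h s hs
  rw [shift_map, coeff_map] at h1
  exact hφ (by rw [h1, map_zero])

theorem VanishOrder.of_C_mul {K : Type*} [Field K]
    {F : MvPolynomial (Fin 2) K} {a b : K} {m : ℕ} {u : K} (hu : u ≠ 0)
    (h : VanishOrder (C u * F) a b m) : VanishOrder F a b m := by
  intro s hs
  have h1 := h s hs
  rw [map_mul, algHom_C, algebraMap_eq, coeff_C_mul] at h1
  exact (mul_eq_zero.1 h1).resolve_left hu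

end Pool.Agent.NagGon
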