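import Mathlib
import Pool.Agent.NagGon.Spec
import Pool.Agent.NagGon.ResMain
import Pool.Agent.NagGon.Bezout

namespace Pool.Agent.NagGon

open MvPolynomial IsLocalRing

universe u

/-- The curve `F = 0` is dominated by a curve of gonality at most `g`. -/
def GonalityLE {K : Type u} [Field K] (F : MvPolynomial (Fin 2) K) (g : ℕ) : Prop :=
  ∃ (L : Type u) (_ : Field L) (_ : Algebra K L) (x y h : L),
    RingHom.ker (aeval ![x, y] : MvPolynomial (Fin 2) K →ₐ[K] L) = Ideal.span {F} ∧
    Transcendental K h ∧ FiniteDimensional (IntermediateField.adjoin K {h}) L ∧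
    Module.finrank (IntermediateField.adjoin K {h}) L ≤ g

/-- A place of `K` over `ℚ(a)^alg` specialising the `b i` to `β i`. -/
theorem exists_place_K {K : Type u} [Field K] [CharZero K] {n : ℕ}
    (E : Type u) [Field E] [Algebra E K] (b : Fin n → K) (β : Fin n → E)
    (hb : AlgebraicIndependent E b) :
    ∃ V : ValuationSubring K, (∀ c : E, algebraMap E K c ∈ V) ∧
      (∀ c : E, c ≠ 0 → ¬ V.valuation (algebraMap E K c) < 1) ∧ (∀ i, b i ∈ V) ∧
      (∀ i, V.valuation (b i - algebraMap E K (β i)) < 1) := by
  let ψ : MvPolynomial (Fin n) E →+* K := (aeval b : MvPolynomial (Fin n) E →ₐ[E] K).toRingHom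
  let φ : MvPolynomial (Fin n) E →+* E := (aeval β : MvPolynomial (Fin n) E →ₐ[E] E).toRingHom
  have hprime : (RingHom.ker φ).IsPrime := RingHom.ker_isPrime φ
  have hker : RingHom.ker ψ ≤ RingHom.ker φ := by
    intro p hp
    have h1 : aeval b p = 0 := hp
    have h2 : p = 0 := by
      apply hb
      rw [h1, map_zero]
    rw [h2]
    exact zero_mem _
  obtain ⟨V, hV1, hV2⟩ := chevalley (RingHom.ker φ) ψ hker
  have hC : ∀ c : E, ψ (C c) = algebraMap E K c := fun c => by
    change aeval b (C c) = _
    rw [← algebraMap_eq, AlgHom.commutes]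
  have hX : ∀ i, ψ (X i) = b i := fun i => aeval_X b i
  refine ⟨V, fun c => ?_, fun c hc => ?_, fun i => ?_, fun i => ?_⟩
  · rw [← hC]; exact hV1 _
  · rw [← hC, hV2, RingHom.mem_ker]
    change aeval β (C c) ≠ 0
    rw [← algebraMap_eq, AlgHom.commutes]
    exact hc
  · rw [← hX]; exact hV1 _
  · rw [← hX, ← hC, ← map_sub, hV2, RingHom.mem_ker]
    change aeval β (X i - C (β i)) = 0
    rw [map_sub, aeval_X, ← algebraMap_eq, AlgHom.commutes]
    exact sub_self _

/-- The specialised statement: given the place `V`. -/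
theorem sum_le_of_place {K : Type u} [Field K] [IsAlgClosed K] [CharZero K] {n : ℕ}
    (V : ValuationSubring K) (hQ : ∀ k : ℕ, k ≠ 0 → ¬ V.valuation (k : K) < 1)
    (a b β : Fin n → K) (ha : ∀ i, a i ∈ V) (hb : ∀ i, b i ∈ V) (hβ : ∀ i, β i ∈ V)
    (haa : ∀ i j, i ≠ j → ¬ V.valuation (a i - a j) < 1)
    (hβ0 : ∀ i, ¬ V.valuation (β i) < 1) (hbβ : ∀ i, V.valuation (b i - β i) < 1)
    (F : MvPolynomial (Fin 2) K) (hF : F ≠ 0) (m : Fin n → ℕ)
    (hm : ∀ i, VanishOrder F (a i) (b i) (m i)) (g : ℕ) (hg : GonalityLE F g)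
    (hΓ : ∀ i, a i ^ (g + 2) + β i ^ (g + 2) = 1) :
    ∑ i, m i ≤ (g + 2) * F.totalDegree := by
  have he : 1 ≤ g + 2 := by omega
  have hres0 : ∀ z : V, residue V z = 0 ↔ V.valuation (z : K) < 1 := fun z =>
    residue_eq_zero_iff' V z
  have hch : CharZero (ResidueField V) := by
    apply charZero_of_inj_zero
    intro k hk
    by_contra hne
    apply hQ k hne
    have h1 : residue V ((k : ℕ) : V) = 0 := by rw [map_natCast]; exact hk
    simpa using (hres0 _).1 h1
  obtain ⟨u, hu, F₀, hF₀, hs⟩ := exists_primitive V F hF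
  have hFbar := map_residue_ne_zero V F₀ hs
  have hinj : Function.Injective (algebraMap V K) := IsFractionRing.injective V K
  have hdeg : (map (residue V) F₀).totalDegree ≤ F.totalDegree := by
    refine (Finset.sup_mono (support_map_subset (residue V) F₀)).trans ?_
    change F₀.totalDegree ≤ F.totalDegree
    have h1 : F₀.totalDegree = (map (algebraMap V K) F₀).totalDegree := by
      unfold totalDegree
      rw [support_map_of_injective F₀ hinj]
    have h2 : map (algebraMap V K) F₀ = C u⁻¹ * F := by
      rw [hF₀, ← mul_assoc, ← C_mul, inv_mul_cancel₀ hu, C_1, one_mul]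
    rw [h1, h2]
    refine (totalDegree_mul _ _).trans ?_
    rw [totalDegree_C, zero_add]
  have hvan : ∀ i, VanishOrder (map (residue V) F₀) (residue V ⟨a i, ha i⟩)
      (residue V ⟨β i, hβ i⟩) (m i) := by
    intro i
    have h1 : VanishOrder F₀ (⟨a i, ha i⟩ : V) ⟨b i, hb i⟩ (m i) := by
      apply VanishOrder.of_map (algebraMap V K) hinj
      apply VanishOrder.of_C_mul hu
      rw [← hF₀]
      exact hm i
    have h2 := h1.map (residue V)
    have h3 : residue V ⟨b i, hb i⟩ = residue V ⟨β i, hβ i⟩ := by
      rw [← sub_eq_zero, ← map_sub]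
      exact (hres0 _).2 (hbβ i)
    rwa [h3] at h2
  by_cases hpi : piG (ResidueField V) (g + 2) (map (residue V) F₀) = 0
  · exfalso
    obtain ⟨L, _, _, x, y, h, hkerL, htr, hfin, hfr⟩ := hg
    have hdomG := RG_isDomain (κ := ResidueField V) (g + 2) he
    let ψ : MvPolynomial (Fin 2) V →+* L :=
      ((aeval ![x, y] : MvPolynomial (Fin 2) K →ₐ[K] L).toRingHom).comp (map (algebraMap V K))
    let φ : MvPolynomial (Fin 2) V →+* RG (ResidueField V) (g + 2) :=
      ((piG (ResidueField V) (g + 2)).toRingHom).comp (map (residue V))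
    have hprime : (RingHom.ker φ).IsPrime := RingHom.ker_isPrime φ
    have hker : RingHom.ker ψ ≤ RingHom.ker φ := by
      intro G hG
      have h1 : map (algebraMap V K) G ∈ RingHom.ker (aeval ![x, y] :
          MvPolynomial (Fin 2) K →ₐ[K] L) := hG
      rw [hkerL, Ideal.mem_span_singleton] at h1
      obtain ⟨H, hH⟩ := h1
      obtain ⟨H₁, hH₁⟩ := gauss V F₀ G hFbar (C u * H) (by rw [hH, hF₀]; ring)
      change piG (ResidueField V) (g + 2) (map (residue V) G) = 0
      rw [hH₁, map_mul, map_mul, hpi, zero_mul]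
    obtain ⟨W, hW1, hW2⟩ := chevalley (RingHom.ker φ) ψ hker
    have hψC : ∀ c : V, ψ (C c) = algebraMap K L c := fun c => by
      change aeval ![x, y] (map (algebraMap V K) (C c)) = _
      rw [map_C, ← algebraMap_eq, AlgHom.commutes]; rfl
    have hψX : ψ (X 0) = x := by
      change aeval ![x, y] (map (algebraMap V K) (X 0)) = _
      rw [map_X, aeval_X]; rfl
    have hψY : ψ (X 1) = y := by
      change aeval ![x, y] (map (algebraMap V K) (X 1)) = _
      rw [map_X, aeval_X]; rfl
    have hφC : ∀ c : V, φ (C c) = algebraMap (ResidueField V) (RG (ResidueField V) (g + 2))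
        (residue V c) := fun c => by
      change piG _ _ (map (residue V) (C c)) = _
      rw [map_C, ← algebraMap_eq, AlgHom.commutes]
    have hφX : φ (X 0) = xG (ResidueField V) (g + 2) := by
      change piG _ _ (map (residue V) (X 0)) = _
      rw [map_X, piG, aeval_X]; rfl
    have hφY : φ (X 1) = yG (ResidueField V) (g + 2) := by
      change piG _ _ (map (residue V) (X 1)) = _
      rw [map_X, piG, aeval_X]; rfl
    have hntG : Nontrivial (RG (ResidueField V) (g + 2)) := hdomG.toNontrivial
    have hCinj : Function.Injective (algebraMap (ResidueField V) (RG (ResidueField V) (g + 2))) :=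
      FaithfulSMul.algebraMap_injective _ _
    refine res_main (K := K) W ?_ h ?_ hfin (g + 2) (by omega) x y ?_ ?_ ?_ ?_
    · intro k hk hlt
      have h1 : ((k : ℕ) : L) = ψ (C ((k : ℕ) : V)) := by
        rw [hψC]; simp
      rw [h1, hW2, RingHom.mem_ker, hφC, map_natCast, map_natCast] at hlt
      have h2 : algebraMap (ResidueField V) (RG (ResidueField V) (g + 2)) (k : ResidueField V) =
          algebraMap _ _ 0 := by
        rw [map_natCast, hlt, map_zero]
      have h3 := hCinj h2
      exact hk (by exact_mod_cast h3)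
    · intro c hc
      apply htr
      rw [hc]
      exact isAlgebraic_algebraMap c
    · rw [← hψX]; exact hW1 _
    · rw [← hψY]; exact hW1 _
    · have h1 : x ^ (g + 2) + y ^ (g + 2) - 1 = ψ (X 0 ^ (g + 2) + X 1 ^ (g + 2) - 1) := by
        simp [hψX, hψY]
      rw [h1, hW2, RingHom.mem_ker]
      simp only [map_sub, map_add, map_pow, map_one, hφX, hφY, yG_pow]
      ring
    · intro c hlt
      have hxW : x ∈ W := by rw [← hψX]; exact hW1 _
      have hcW : algebraMap K L c ∈ W := by
        have h1 : algebraMap K L c = x - (x - algebraMap K L c) := by ring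
        rw [h1, ← ValuationSubring.valuation_le_one_iff]
        exact (Valuation.map_sub _ _ _).trans (max_le
          ((ValuationSubring.valuation_le_one_iff W x).2 hxW) hlt.le)
      have hcV : c ∈ V := by
        by_contra hcV
        have hc0 : c ≠ 0 := by
          rintro rfl
          exact hcV (zero_mem V)
        have h1 : c⁻¹ ∈ V := (V.mem_or_inv_mem c).resolve_left hcV
        have h2 : V.valuation (c⁻¹) < 1 := by
          rw [map_inv₀]
          apply inv_lt_one_of_one_lt₀
          by_contra h3
          exact hcV ((ValuationSubring.valuation_le_one_iff V c).1 (not_lt.1 h3))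
        have h4 : W.valuation (algebraMap K L c⁻¹) < 1 := by
          have h5 := hψC ⟨c⁻¹, h1⟩
          change ψ (C ⟨c⁻¹, h1⟩) = algebraMap K L c⁻¹ at h5
          rw [← h5, hW2, RingHom.mem_ker, hφC, (hres0 _).2 h2, map_zero]
        have h5 := (ValuationSubring.valuation_le_one_iff W _).2 hcW
        have h6 : W.valuation (algebraMap K L c⁻¹) * W.valuation (algebraMap K L c) = 1 := by
          rw [← map_mul, ← map_mul, inv_mul_cancel₀ hc0, map_one, map_one]
        have h7 : W.valuation (algebraMap K L c⁻¹) * W.valuation (algebraMap K L c) < 1 :=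
          (mul_le_of_le_one_right' h5).trans_lt h4
        exact h7.ne h6
      have h1 : x - algebraMap K L c = ψ (X 0 - C ⟨c, hcV⟩) := by
        rw [map_sub, hψX, hψC]
      rw [h1, hW2, RingHom.mem_ker, map_sub, hφX, hφC] at hlt
      have h2 : algebraMap (Polynomial (ResidueField V)) (RG (ResidueField V) (g + 2))
          (Polynomial.X - Polynomial.C (residue V ⟨c, hcV⟩)) = 0 := by
        rw [map_sub]
        exact hlt
      have hfree : Module.Free (Polynomial (ResidueField V)) (RG (ResidueField V) (g + 2)) :=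
        Module.Free.of_basis (pbG (ResidueField V) (g + 2) he).basis
      have h3 : Function.Injective (algebraMap (Polynomial (ResidueField V))
          (RG (ResidueField V) (g + 2))) := FaithfulSMul.algebraMap_injective _ _
      exact Polynomial.X_sub_C_ne_zero _ (h3 (by rw [h2, map_zero]))
  · refine bezout (g + 2) he (map (residue V) F₀) F.totalDegree hdeg hpi
      (fun i => residue V ⟨a i, ha i⟩) (fun i => residue V ⟨β i, hβ i⟩) ?_ ?_ ?_ m hvan
    · intro i j hij
      by_contra hne
      apply haa i j hne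
      have h1 : residue V (⟨a i, ha i⟩ - ⟨a j, ha j⟩) = 0 := by
        rw [map_sub, sub_eq_zero]; exact hij
      exact (hres0 _).1 h1
    · intro i
      change residue V ⟨a i, ha i⟩ ^ (g + 2) + residue V ⟨β i, hβ i⟩ ^ (g + 2) = 1
      rw [← map_pow, ← map_pow, ← map_add, ← map_one (residue V)]
      congr 1
      exact Subtype.ext (hΓ i)
    · intro i h0
      exact hβ0 i ((hres0 _).1 h0)

end Pool.Agent.NagGon
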