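import Mathlib
import Pool.Agent.NagGon.Main

namespace Pool.Agent.NagGon

open MvPolynomial

universe u

theorem gonality_inequality {K : Type u} [Field K] [IsAlgClosed K] [CharZero K] {n : ℕ}
    (a b : Fin n → K) (hind : AlgebraicIndependent ℚ (Sum.elim a b))
    (F : MvPolynomial (Fin 2) K) (hF : F ≠ 0) (m : Fin n → ℕ)
    (hm : ∀ i, VanishOrder F (a i) (b i) (m i)) (g : ℕ) (hg : GonalityLE F g) :
    ∑ i, m i ≤ (g + 2) * F.totalDegree := by
  have hswap : AlgebraicIndependent ℚ (Sum.elim b a) := by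
    have h1 := hind.comp (Sum.swap) (Equiv.sumComm (Fin n) (Fin n)).injective
    have h2 : (Sum.elim a b) ∘ (Sum.swap) = Sum.elim b a := by
      funext i
      rcases i with i | i <;> rfl
    rwa [h2] at h1
  obtain ⟨ha0, hb0⟩ := AlgebraicIndependent.sumElim_iff.1 hswap
  have hb1 : AlgebraicIndependent (IntermediateField.adjoin ℚ (Set.range a)) b :=
    IntermediateField.algebraicIndependent_adjoin_iff.2 hb0
  have hb2 := hb1.algebraicClosure
  let A₀ := IntermediateField.adjoin ℚ (Set.range a)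
  let E := algebraicClosure A₀ K
  have hβ : ∀ i, ∃ β : K, β ^ (g + 2) = 1 - a i ^ (g + 2) := fun i =>
    IsAlgClosed.exists_pow_nat_eq _ (by omega)
  choose β hβ using hβ
  have haA : ∀ i, a i ∈ A₀ := fun i => IntermediateField.subset_adjoin _ _ ⟨i, rfl⟩
  have haE : ∀ i, a i ∈ E := fun i =>
    (mem_algebraicClosure_iff (F := A₀) (E := K)).2
      (isAlgebraic_algebraMap (⟨a i, haA i⟩ : A₀))
  have hβE : ∀ i, β i ∈ E := by
    intro i
    apply (mem_algebraicClosure_iff (F := A₀) (E := K)).2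
    apply IsAlgebraic.of_pow (n := g + 2) (by omega)
    rw [hβ]
    exact isAlgebraic_algebraMap (1 - (⟨a i, haA i⟩ : A₀) ^ (g + 2))
  obtain ⟨V, hV1, hV2, hV3, hV4⟩ := exists_place_K E b (fun i => (⟨β i, hβE i⟩ : E)) hb2
  refine sum_le_of_place V ?_ a b β ?_ hV3 ?_ ?_ ?_ ?_ F hF m hm g hg ?_
  · intro k hk
    have h1 := hV2 ((k : ℕ) : E) (by exact_mod_cast hk)
    simpa using h1
  · intro i
    exact hV1 ⟨a i, haE i⟩
  · intro i
    exact hV1 ⟨β i, hβE i⟩
  · intro i j hij
    have hne : (⟨a i, haE i⟩ - ⟨a j, haE j⟩ : E) ≠ 0 := by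
      intro h0
      have h1 : a i = a j := congrArg Subtype.val (sub_eq_zero.1 h0)
      exact hij (ha0.injective h1)
    exact hV2 _ hne
  · intro i
    have hne : (⟨β i, hβE i⟩ : E) ≠ 0 := by
      intro h0
      have h1 : β i = 0 := congrArg Subtype.val h0
      have h2 := hβ i
      rw [h1, zero_pow (by omega)] at h2
      have h3 := ha0.transcendental i
      apply h3
      refine ⟨Polynomial.X ^ (g + 2) - 1, ?_, ?_⟩
      · have := Polynomial.X_pow_sub_C_ne_zero (R := ℚ) (by omega : 0 < g + 2) 1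
        simpa using this
      · simp only [map_sub, map_pow, Polynomial.aeval_X, map_one]
        linear_combination h2
    exact hV2 _ hne
  · intro i
    exact hV4 i
  · intro i
    rw [hβ]; ring

end Pool.Agent.NagGon
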